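import Pool.Agent.H75.TT.FamB

/-!
Symmetric monoidal structure on families of objects (no signs).
-/

open CategoryTheory CategoryTheory.Limits MonoidalCategory

namespace Pool.Agent.H75.TT

section zsmul

variable {C : Type*} [Category* C] [Preadditive C] [MonoidalCategory C] [MonoidalPreadditive C]
variable {W X Y Z : C}

lemma zsmul_tensor (n : ℤ) (f : W ⟶ X) (g : Y ⟶ Z) : (n • f) ⊗ₘ g = n • (f ⊗ₘ g) :=
  (AddMonoidHom.mk' (fun f : W ⟶ X => f ⊗ₘ g)
    (fun a b => MonoidalPreadditive.add_tensor a b g)).map_zsmul n f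

lemma tensor_zsmul (n : ℤ) (f : W ⟶ X) (g : Y ⟶ Z) : f ⊗ₘ (n • g) = n • (f ⊗ₘ g) :=
  (AddMonoidHom.mk' (fun g : Y ⟶ Z => f ⊗ₘ g)
    (fun a b => MonoidalPreadditive.tensor_add f a b)).map_zsmul n g

lemma neg_tensor (f : W ⟶ X) (g : Y ⟶ Z) : (-f) ⊗ₘ g = -(f ⊗ₘ g) :=
  (AddMonoidHom.mk' (fun f : W ⟶ X => f ⊗ₘ g)
    (fun a b => MonoidalPreadditive.add_tensor a b g)).map_neg f

lemma tensor_neg (f : W ⟶ X) (g : Y ⟶ Z) : f ⊗ₘ (-g) = -(f ⊗ₘ g) :=
  (AddMonoidHom.mk' (fun g : Y ⟶ Z => f ⊗ₘ g)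
    (fun a b => MonoidalPreadditive.tensor_add f a b)).map_neg g

lemma sub_tensor (f f' : W ⟶ X) (g : Y ⟶ Z) : (f - f') ⊗ₘ g = f ⊗ₘ g - f' ⊗ₘ g := by
  rw [sub_eq_add_neg, MonoidalPreadditive.add_tensor, neg_tensor, ← sub_eq_add_neg]

lemma tensor_sub (f : W ⟶ X) (g g' : Y ⟶ Z) : f ⊗ₘ (g - g') = f ⊗ₘ g - f ⊗ₘ g' := by
  rw [sub_eq_add_neg, MonoidalPreadditive.tensor_add, tensor_neg, ← sub_eq_add_neg]

end zsmul

namespace Fam

section natural

variable {P : Type} [Category.{0} P] [Preadditive P] {F G F' G' : Fam P}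

/-- Naturality of a monomial matrix along a bijection. -/
lemma diag_natural {f : F ⟶ G} {g : F' ⟶ G'} (e : F.ι → F'.ι) (φ : ∀ i, F.X i ⟶ F'.X (e i))
    (e' : G.ι → G'.ι) (φ' : ∀ i, G.X i ⟶ G'.X (e' i)) (s : G'.ι → G.ι)
    (h1 : ∀ j, s (e' j) = j) (h2 : ∀ k, e' (s k) = k)
    (h : ∀ i j, f.m i j ≫ φ' j = φ i ≫ g.m (e i) (e' j)) :
    f ≫ diag e' φ' = diag e φ ≫ g := by
  ext i k
  obtain ⟨j, rfl⟩ : ∃ j, e' j = k := ⟨s k, h2 k⟩
  rw [diag_comp_m, comp_diag_m _ _ (Function.LeftInverse.injective h1), h]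

end natural

variable {P : Type} [Category.{0} P] [Preadditive P] [MonoidalCategory P]
  [MonoidalPreadditive P]

/-- The tensor product of two families. -/
abbrev tens (F G : Fam P) : Fam P := ⟨F.ι × G.ι, fun p => F.X p.1 ⊗ G.X p.2⟩

variable (P) in
/-- The unit family. -/
abbrev unit : Fam P := ⟨Unit, fun _ => 𝟙_ P⟩

variable {F G H K F' G' H' K' : Fam P}

/-- The tensor product of two matrices. -/
noncomputable def tensHom (f : F ⟶ F') (g : G ⟶ G') : tens F G ⟶ tens F' G' where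
  m p q := f.m p.1 q.1 ⊗ₘ g.m p.2 q.2
  fin p := by
    refine ((f.fin p.1).prod (g.fin p.2)).subset ?_
    rintro ⟨i, j⟩ hne
    refine ⟨fun h => hne ?_, fun h => hne ?_⟩
    · change f.m p.1 i ⊗ₘ g.m p.2 j = 0
      rw [h, MonoidalPreadditive.zero_tensor]
    · change f.m p.1 i ⊗ₘ g.m p.2 j = 0
      rw [h, MonoidalPreadditive.tensor_zero]

lemma tensHom_m (f : F ⟶ F') (g : G ⟶ G') (p : (tens F G).ι) (q : (tens F' G').ι) :
    (tensHom f g).m p q = f.m p.1 q.1 ⊗ₘ g.m p.2 q.2 := rfl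

lemma tensHom_m_ne_zero (f : F ⟶ F') (g : G ⟶ G') {p : (tens F G).ι} {q : (tens F' G').ι}
    (h : (tensHom f g).m p q ≠ 0) : f.m p.1 q.1 ≠ 0 ∧ g.m p.2 q.2 ≠ 0 := by
  refine ⟨fun h0 => h ?_, fun h0 => h ?_⟩
  · rw [tensHom_m, h0, MonoidalPreadditive.zero_tensor]
  · rw [tensHom_m, h0, MonoidalPreadditive.tensor_zero]

lemma tensHom_diag (e : F.ι → F'.ι) (φ : ∀ i, F.X i ⟶ F'.X (e i)) (e' : G.ι → G'.ι)
    (φ' : ∀ i, G.X i ⟶ G'.X (e' i)) :
    tensHom (diag e φ) (diag e' φ') =
      diag (F := tens F G) (G := tens F' G') (fun p => (e p.1, e' p.2))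
        (fun p => φ p.1 ⊗ₘ φ' p.2) := by
  ext p q
  by_cases h : (e p.1, e' p.2) = q
  · subst h
    rw [tensHom_m]
    change (diag e φ).m p.1 (e p.1) ⊗ₘ (diag e' φ').m p.2 (e' p.2) = _
    rw [diag_m_self, diag_m_self]
    exact (diag_m_self (F := tens F G) (G := tens F' G') (fun p => (e p.1, e' p.2))
      (fun p => φ p.1 ⊗ₘ φ' p.2) p).symm
  · rw [diag_m_ne (F := tens F G) (G := tens F' G') (fun p => (e p.1, e' p.2)) _ h, tensHom_m]
    by_cases h1 : e p.1 = q.1
    · have h2 : e' p.2 ≠ q.2 := fun h2 => h (Prod.ext h1 h2)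
      rw [diag_m_ne e' φ' h2, MonoidalPreadditive.tensor_zero]
    · rw [diag_m_ne e φ h1, MonoidalPreadditive.zero_tensor]

lemma tensHom_id (F G : Fam P) : tensHom (𝟙 F) (𝟙 G) = 𝟙 (tens F G) := by
  rw [id_eq_diag F, id_eq_diag G, tensHom_diag, id_eq_diag (tens F G)]
  exact diag_ext (F := tens F G) (G := tens F G) _ fun p => id_tensorHom_id _ _

lemma tensHom_comp (f : F ⟶ G) (g : G ⟶ H) (f' : F' ⟶ G') (g' : G' ⟶ H') :
    tensHom f f' ≫ tensHom g g' = tensHom (f ≫ g) (f' ≫ g') := by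
  classical
  ext p q
  rw [comp_m_sum (tensHom f f') (tensHom g g') p q (Hom.supp f p.1 ×ˢ Hom.supp f' p.2)]
  · rw [tensHom_m, comp_m_supp, comp_m_supp, Finset.sum_product, sum_tensor]
    refine Finset.sum_congr rfl fun j _ => ?_
    rw [tensor_sum]
    refine Finset.sum_congr rfl fun j' _ => ?_
    rw [tensHom_m, tensHom_m, tensorHom_comp_tensorHom]
  · intro j hj
    have := tensHom_m_ne_zero f f' hj
    exact Finset.mem_product.2 ⟨(Hom.mem_supp _ _ _).2 this.1, (Hom.mem_supp _ _ _).2 this.2⟩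

lemma tensHom_add (f : F ⟶ F') (g g' : G ⟶ G') :
    tensHom f (g + g') = tensHom f g + tensHom f g' := by
  ext p q
  exact MonoidalPreadditive.tensor_add _ _ _

lemma add_tensHom (f f' : F ⟶ F') (g : G ⟶ G') :
    tensHom (f + f') g = tensHom f g + tensHom f' g := by
  ext p q
  exact MonoidalPreadditive.add_tensor _ _ _

lemma tensHom_zero (f : F ⟶ F') : tensHom f (0 : G ⟶ G') = 0 := by
  ext p q
  exact MonoidalPreadditive.tensor_zero _

lemma zero_tensHom (g : G ⟶ G') : tensHom (0 : F ⟶ F') g = 0 := by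
  ext p q
  exact MonoidalPreadditive.zero_tensor _

/-! ### Structure isomorphisms -/

/-- The associator. -/
noncomputable def assocIso (F G H : Fam P) : tens (tens F G) H ≅ tens F (tens G H) where
  hom := diag (F := tens (tens F G) H) (G := tens F (tens G H))
    (fun p => (p.1.1, (p.1.2, p.2))) (fun p => (α_ (F.X p.1.1) (G.X p.1.2) (H.X p.2)).hom)
  inv := diag (F := tens F (tens G H)) (G := tens (tens F G) H)
    (fun p => ((p.1, p.2.1), p.2.2)) (fun p => (α_ (F.X p.1) (G.X p.2.1) (H.X p.2.2)).inv)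
  hom_inv_id := by
    rw [diag_comp_diag, id_eq_diag]
    exact diag_ext (F := tens (tens F G) H) (G := tens (tens F G) H) _
      fun p => Iso.hom_inv_id _
  inv_hom_id := by
    rw [diag_comp_diag, id_eq_diag]
    exact diag_ext (F := tens F (tens G H)) (G := tens F (tens G H)) _
      fun p => Iso.inv_hom_id _

/-- The left unitor. -/
noncomputable def leftIso (F : Fam P) : tens (unit P) F ≅ F where
  hom := diag (F := tens (unit P) F) (G := F) (fun p => p.2) (fun p => (λ_ (F.X p.2)).hom)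
  inv := diag (F := F) (G := tens (unit P) F) (fun i => ((), i)) (fun i => (λ_ (F.X i)).inv)
  hom_inv_id := by
    rw [diag_comp_diag, id_eq_diag]
    exact diag_ext (F := tens (unit P) F) (G := tens (unit P) F) _
      fun p => Iso.hom_inv_id _
  inv_hom_id := by
    rw [diag_comp_diag, id_eq_diag]
    exact diag_ext (F := F) (G := F) _ fun p => Iso.inv_hom_id _

/-- The right unitor. -/
noncomputable def rightIso (F : Fam P) : tens F (unit P) ≅ F where
  hom := diag (F := tens F (unit P)) (G := F) (fun p => p.1) (fun p => (ρ_ (F.X p.1)).hom)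
  inv := diag (F := F) (G := tens F (unit P)) (fun i => (i, ())) (fun i => (ρ_ (F.X i)).inv)
  hom_inv_id := by
    rw [diag_comp_diag, id_eq_diag]
    exact diag_ext (F := tens F (unit P)) (G := tens F (unit P)) _
      fun p => Iso.hom_inv_id _
  inv_hom_id := by
    rw [diag_comp_diag, id_eq_diag]
    exact diag_ext (F := F) (G := F) _ fun p => Iso.inv_hom_id _

noncomputable instance : MonoidalCategoryStruct (Fam P) where
  tensorObj := tens
  whiskerLeft F _ _ g := tensHom (𝟙 F) g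
  whiskerRight f G := tensHom f (𝟙 G)
  tensorHom := tensHom
  tensorUnit := unit P
  associator := assocIso
  leftUnitor := leftIso
  rightUnitor := rightIso

lemma tensorObj_eq (F G : Fam P) : F ⊗ G = tens F G := rfl
lemma tensorUnit_eq : 𝟙_ (Fam P) = unit P := rfl
lemma tensorHom_eq (f : F ⟶ F') (g : G ⟶ G') : f ⊗ₘ g = tensHom f g := rfl

lemma tensorHom_m (f : F ⟶ F') (g : G ⟶ G') (p : (tens F G).ι) (q : (tens F' G').ι) :
    (f ⊗ₘ g).m p q = f.m p.1 q.1 ⊗ₘ g.m p.2 q.2 := rfl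

lemma assoc_hom_eq (F G H : Fam P) : (α_ F G H).hom =
    diag (F := tens (tens F G) H) (G := tens F (tens G H))
    (fun p => (p.1.1, (p.1.2, p.2))) (fun p => (α_ (F.X p.1.1) (G.X p.1.2) (H.X p.2)).hom) := rfl

lemma assoc_inv_eq (F G H : Fam P) : (α_ F G H).inv =
    diag (F := tens F (tens G H)) (G := tens (tens F G) H)
    (fun p => ((p.1, p.2.1), p.2.2)) (fun p => (α_ (F.X p.1) (G.X p.2.1) (H.X p.2.2)).inv) := rfl

lemma left_hom_eq (F : Fam P) : (λ_ F).hom =
    diag (F := tens (unit P) F) (G := F) (fun p => p.2) (fun p => (λ_ (F.X p.2)).hom) := rfl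

lemma left_inv_eq (F : Fam P) : (λ_ F).inv =
    diag (F := F) (G := tens (unit P) F) (fun i => ((), i)) (fun i => (λ_ (F.X i)).inv) := rfl

lemma right_hom_eq (F : Fam P) : (ρ_ F).hom =
    diag (F := tens F (unit P)) (G := F) (fun p => p.1) (fun p => (ρ_ (F.X p.1)).hom) := rfl

lemma right_inv_eq (F : Fam P) : (ρ_ F).inv =
    diag (F := F) (G := tens F (unit P)) (fun i => (i, ())) (fun i => (ρ_ (F.X i)).inv) := rfl

noncomputable instance : MonoidalCategory (Fam P) :=
  MonoidalCategory.ofTensorHom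
    (id_tensorHom_id := fun F G => tensHom_id F G)
    (id_tensorHom := fun _ _ _ _ => rfl)
    (tensorHom_id := fun _ _ => rfl)
    (tensorHom_comp_tensorHom := fun f₁ f₂ g₁ g₂ => tensHom_comp f₁ g₁ f₂ g₂)
    (associator_naturality := fun {X₁ X₂ X₃ Y₁ Y₂ Y₃} f₁ f₂ f₃ => by
      refine diag_natural (F := tens (tens X₁ X₂) X₃) (G := tens (tens Y₁ Y₂) Y₃)
        (F' := tens X₁ (tens X₂ X₃)) (G' := tens Y₁ (tens Y₂ Y₃)) _ _ _ _
        (fun p => ((p.1, p.2.1), p.2.2)) (fun _ => rfl) (fun _ => rfl) ?_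
      intro i j
      exact MonoidalCategory.associator_naturality _ _ _)
    (leftUnitor_naturality := fun {X Y} f => by
      refine diag_natural (F := tens (unit P) X) (G := tens (unit P) Y) (F' := X) (G' := Y)
        _ _ _ _ (fun i => ((), i)) (fun _ => rfl) (fun _ => rfl) ?_
      intro i j
      change ((𝟙 (unit P) : unit P ⟶ unit P).m i.1 i.1 ⊗ₘ f.m i.2 j.2) ≫ (λ_ (Y.X j.2)).hom = _
      rw [id_m_self]
      change (𝟙 (𝟙_ P) ⊗ₘ f.m i.2 j.2) ≫ (λ_ (Y.X j.2)).hom = (λ_ (X.X i.2)).hom ≫ f.m i.2 j.2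
      rw [MonoidalCategory.id_tensorHom, MonoidalCategory.leftUnitor_naturality])
    (rightUnitor_naturality := fun {X Y} f => by
      refine diag_natural (F := tens X (unit P)) (G := tens Y (unit P)) (F' := X) (G' := Y)
        _ _ _ _ (fun i => (i, ())) (fun _ => rfl) (fun _ => rfl) ?_
      intro i j
      change (f.m i.1 j.1 ⊗ₘ (𝟙 (unit P) : unit P ⟶ unit P).m i.2 i.2) ≫ (ρ_ (Y.X j.1)).hom = _
      rw [id_m_self]
      change (f.m i.1 j.1 ⊗ₘ 𝟙 (𝟙_ P)) ≫ (ρ_ (Y.X j.1)).hom = (ρ_ (X.X i.1)).hom ≫ f.m i.1 j.1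
      rw [MonoidalCategory.tensorHom_id, MonoidalCategory.rightUnitor_naturality])
    (pentagon := fun W X Y Z => by
      change tensHom (assocIso W X Y).hom (𝟙 Z) ≫ (assocIso W (tens X Y) Z).hom ≫
        tensHom (𝟙 W) (assocIso X Y Z).hom =
          (assocIso (tens W X) Y Z).hom ≫ (assocIso W X (tens Y Z)).hom
      simp only [assocIso]
      rw [id_eq_diag Z, id_eq_diag W, tensHom_diag, tensHom_diag, diag_comp_diag,
        diag_comp_diag, diag_comp_diag]
      refine diag_ext (F := tens (tens (tens W X) Y) Z) (G := tens W (tens X (tens Y Z))) _ ?_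
      intro p
      have := MonoidalCategory.pentagon (W.X p.1.1.1) (X.X p.1.1.2) (Y.X p.1.2) (Z.X p.2)
      rw [← MonoidalCategory.tensorHom_id, ← MonoidalCategory.id_tensorHom] at this
      exact this)
    (triangle := fun X Y => by
      change (assocIso X (unit P) Y).hom ≫ tensHom (𝟙 X) (leftIso Y).hom =
        tensHom (rightIso X).hom (𝟙 Y)
      simp only [assocIso, leftIso, rightIso]
      rw [id_eq_diag X, id_eq_diag Y, tensHom_diag, tensHom_diag, diag_comp_diag]
      refine diag_ext (F := tens (tens X (unit P)) Y) (G := tens X Y) _ ?_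
      intro p
      have := MonoidalCategory.triangle (X.X p.1.1) (Y.X p.2)
      rw [← MonoidalCategory.tensorHom_id, ← MonoidalCategory.id_tensorHom] at this
      exact this)

instance : MonoidalPreadditive (Fam P) where
  whiskerLeft_zero := tensHom_zero _
  zero_whiskerRight := zero_tensHom _
  whiskerLeft_add := tensHom_add _
  add_whiskerRight f g := add_tensHom f g _

lemma whiskerLeft_eq (F : Fam P) (g : G ⟶ G') : F ◁ g = tensHom (𝟙 F) g := rfl
lemma whiskerRight_eq (f : F ⟶ F') (G : Fam P) : f ▷ G = tensHom f (𝟙 G) := rfl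

/-! ### Braiding -/

section braided

variable [BraidedCategory P]

/-- The braiding (without signs). -/
noncomputable def braidIso (F G : Fam P) : tens F G ≅ tens G F where
  hom := diag (F := tens F G) (G := tens G F) (fun p => (p.2, p.1))
    (fun p => (β_ (F.X p.1) (G.X p.2)).hom)
  inv := diag (F := tens G F) (G := tens F G) (fun p => (p.2, p.1))
    (fun p => (β_ (F.X p.2) (G.X p.1)).inv)
  hom_inv_id := by
    rw [diag_comp_diag, id_eq_diag]
    exact diag_ext (F := tens F G) (G := tens F G) _ fun p => Iso.hom_inv_id _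
  inv_hom_id := by
    rw [diag_comp_diag, id_eq_diag]
    exact diag_ext (F := tens G F) (G := tens G F) _ fun p => Iso.inv_hom_id _

lemma braid_natural (f : F ⟶ F') (g : G ⟶ G') :
    tensHom f g ≫ (braidIso F' G').hom = (braidIso F G).hom ≫ tensHom g f := by
  refine diag_natural (F := tens F G) (G := tens F' G') (F' := tens G F) (G' := tens G' F')
    _ _ _ _ (fun p => (p.2, p.1)) (fun _ => rfl) (fun _ => rfl) ?_
  intro i j
  exact BraidedCategory.braiding_naturality _ _

noncomputable instance : BraidedCategory (Fam P) where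
  braiding := braidIso
  braiding_naturality_right _ _ _ g := braid_natural _ g
  braiding_naturality_left f _ := braid_natural f _
  hexagon_forward X Y Z := by
    change (assocIso X Y Z).hom ≫ (braidIso X (tens Y Z)).hom ≫ (assocIso Y Z X).hom =
      tensHom (braidIso X Y).hom (𝟙 Z) ≫ (assocIso Y X Z).hom ≫ tensHom (𝟙 Y) (braidIso X Z).hom
    simp only [assocIso, braidIso]
    rw [id_eq_diag Z, id_eq_diag Y, tensHom_diag, tensHom_diag, diag_comp_diag,
      diag_comp_diag, diag_comp_diag, diag_comp_diag]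
    refine diag_ext (F := tens (tens X Y) Z) (G := tens Y (tens Z X)) _ ?_
    intro p
    have := BraidedCategory.hexagon_forward (X.X p.1.1) (Y.X p.1.2) (Z.X p.2)
    rw [← MonoidalCategory.tensorHom_id, ← MonoidalCategory.id_tensorHom] at this
    exact this
  hexagon_reverse X Y Z := by
    change (assocIso X Y Z).inv ≫ (braidIso (tens X Y) Z).hom ≫ (assocIso Z X Y).inv =
      tensHom (𝟙 X) (braidIso Y Z).hom ≫ (assocIso X Z Y).inv ≫ tensHom (braidIso X Z).hom (𝟙 Y)
    simp only [assocIso, braidIso]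
    rw [id_eq_diag X, id_eq_diag Y, tensHom_diag, tensHom_diag, diag_comp_diag,
      diag_comp_diag, diag_comp_diag, diag_comp_diag]
    refine diag_ext (F := tens X (tens Y Z)) (G := tens (tens Z X) Y) _ ?_
    intro p
    have := BraidedCategory.hexagon_reverse (X.X p.1) (Y.X p.2.1) (Z.X p.2.2)
    rw [← MonoidalCategory.tensorHom_id, ← MonoidalCategory.id_tensorHom] at this
    exact this

lemma braid_hom_eq (F G : Fam P) : (β_ F G).hom =
    diag (F := tens F G) (G := tens G F) (fun p => (p.2, p.1))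
      (fun p => (β_ (F.X p.1) (G.X p.2)).hom) := rfl

lemma braid_inv_eq (F G : Fam P) : (β_ F G).inv =
    diag (F := tens G F) (G := tens F G) (fun p => (p.2, p.1))
      (fun p => (β_ (F.X p.2) (G.X p.1)).inv) := rfl

end braided

noncomputable instance [SymmetricCategory P] : SymmetricCategory (Fam P) where
  toBraidedCategory := inferInstance
  symmetry X Y := by
    rw [braid_hom_eq, braid_hom_eq, diag_comp_diag]
    refine (diag_ext (F := tens X Y) (G := tens X Y) _ fun p => ?_).trans (id_eq_diag _).symm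
    exact SymmetricCategory.symmetry _ _

/-! ### Homogeneous matrices and signs -/

lemma Homog.tensHom {a : F.ι → ℤ} {b : F'.ι → ℤ} {c : G.ι → ℤ} {d : G'.ι → ℤ} {n m : ℤ}
    {f : F ⟶ F'} {g : G ⟶ G'} (hf : Homog a b n f) (hg : Homog c d m g) :
    Homog (F := tens F G) (G := tens F' G') (fun p => a p.1 + c p.2) (fun p => b p.1 + d p.2)
      (n + m) (f ⊗ₘ g) := by
  intro p q h
  have h' := tensHom_m_ne_zero f g h
  change b q.1 + d q.2 = a p.1 + c p.2 + (n + m)
  rw [hf _ _ h'.1, hg _ _ h'.2]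
  ring

lemma Homog.tensHom' {a : F.ι → ℤ} {b : F'.ι → ℤ} {c : G.ι → ℤ} {d : G'.ι → ℤ} {n m k : ℤ}
    {f : F ⟶ F'} {g : G ⟶ G'} (hf : Homog a b n f) (hg : Homog c d m g) (h : n + m = k) :
    Homog (F := tens F G) (G := tens F' G') (fun p => a p.1 + c p.2) (fun p => b p.1 + d p.2)
      k (f ⊗ₘ g) := h ▸ hf.tensHom hg

lemma sgn_tens (a : F.ι → ℤ) (b : G.ι → ℤ) :
    sgn (F := tens F G) (fun p => a p.1 + b p.2) = sgn a ⊗ₘ sgn b := by
  refine Eq.trans ?_ (tensHom_diag _ _ _ _).symm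
  refine diag_ext (F := tens F G) (G := tens F G) _ fun p => ?_
  change ((a p.1 + b p.2).negOnePow : ℤ) • 𝟙 (F.X p.1 ⊗ G.X p.2) =
    (((a p.1).negOnePow : ℤ) • 𝟙 (F.X p.1)) ⊗ₘ (((b p.2).negOnePow : ℤ) • 𝟙 (G.X p.2))
  rw [Int.negOnePow_add, zsmul_tensor, tensor_zsmul, smul_smul, MonoidalCategory.id_tensorHom_id,
    Units.val_mul]

end Fam

end Pool.Agent.H75.TT
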