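import Pool.Agent.H75.TT.DG
import Pool.Agent.H35.TT.FamMon

/-!
Symmetric monoidal structure on semi-free complexes (with the usual signs).
-/

open CategoryTheory CategoryTheory.Limits MonoidalCategory

namespace Pool.Agent.H75.TT

open Fam

namespace Fam

lemma sgn_zero {P : Type} [Category.{0} P] [Preadditive P] (F : Fam P) :
    sgn (F := F) (fun _ => 0) = 𝟙 F := by
  rw [id_eq_diag, sgn]
  exact diag_ext _ fun i => by simp

section kbraid

variable {P : Type} [Category.{0} P] [Preadditive P] [MonoidalCategory P]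
  [MonoidalPreadditive P] {F G H F' G' : Fam P}

/-- The total degree on a tensor product. -/
abbrev tdeg (a : F.ι → ℤ) (b : G.ι → ℤ) : (tens F G).ι → ℤ := fun p => a p.1 + b p.2

lemma left_comm (d : F ⟶ F) :
    (tensHom (0 : unit P ⟶ unit P) (𝟙 F) + tensHom (sgn (F := unit P) (fun _ => 0)) d) ≫
      (leftIso F).hom = (leftIso F).hom ≫ d := by
  rw [zero_tensHom, zero_add, sgn_zero]
  exact MonoidalCategory.leftUnitor_naturality d

lemma right_comm (a : F.ι → ℤ) (d : F ⟶ F) :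
    (tensHom d (𝟙 (unit P)) + tensHom (sgn a) (0 : unit P ⟶ unit P)) ≫
      (rightIso F).hom = (rightIso F).hom ≫ d := by
  rw [tensHom_zero, add_zero]
  exact MonoidalCategory.rightUnitor_naturality d

/-- The product of the degrees on a tensor product. -/
abbrev pdeg (a : F.ι → ℤ) (b : G.ι → ℤ) : (tens F G).ι → ℤ := fun p => a p.1 * b p.2

lemma tensHom_pdeg_zero_zero {a : F.ι → ℤ} {b : F'.ι → ℤ} {c : G.ι → ℤ} {d : G'.ι → ℤ}
    {f : F ⟶ F'} {g : G ⟶ G'} (hf : Homog a b 0 f) (hg : Homog c d 0 g) :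
    tensHom f g ≫ sgn (pdeg b d) = sgn (pdeg a c) ≫ tensHom f g := by
  refine comp_sgn_zero (F := tens F G) (G := tens F' G') ?_
  intro p q h
  have h' := tensHom_m_ne_zero f g h
  change b q.1 * d q.2 = a p.1 * c p.2 + 0
  rw [hf _ _ h'.1, hg _ _ h'.2]
  ring

lemma tensHom_pdeg_one_zero {a : F.ι → ℤ} {b : F'.ι → ℤ} {c : G.ι → ℤ} {d : G'.ι → ℤ}
    {f : F ⟶ F'} {g : G ⟶ G'} (hf : Homog a b 1 f) (hg : Homog c d 0 g) :
    tensHom f g ≫ sgn (pdeg b d) = sgn (pdeg a c) ≫ tensHom f (sgn c ≫ g) := by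
  ext p q
  rw [comp_sgn_m (F := tens F G) (G := tens F' G'),
    sgn_comp_m (F := tens F G) (G := tens F' G'), tensHom_m, tensHom_m, sgn_comp_m, tensor_zsmul,
    smul_smul]
  by_cases h : (tensHom f g).m p q = 0
  · rw [tensHom_m] at h
    rw [h, smul_zero, smul_zero]
  · have h' := tensHom_m_ne_zero f g h
    congr 1
    change ((b q.1 * d q.2).negOnePow : ℤ) = ((a p.1 * c p.2).negOnePow : ℤ) * _
    rw [hf _ _ h'.1, hg _ _ h'.2, ← Units.val_mul, ← Int.negOnePow_add]
    congr 2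
    ring

lemma tensHom_pdeg_zero_one {a : F.ι → ℤ} {b : F'.ι → ℤ} {c : G.ι → ℤ} {d : G'.ι → ℤ}
    {f : F ⟶ F'} {g : G ⟶ G'} (hf : Homog a b 0 f) (hg : Homog c d 1 g) :
    tensHom f g ≫ sgn (pdeg b d) = sgn (pdeg a c) ≫ tensHom (sgn a ≫ f) g := by
  ext p q
  rw [comp_sgn_m (F := tens F G) (G := tens F' G'),
    sgn_comp_m (F := tens F G) (G := tens F' G'), tensHom_m, tensHom_m, sgn_comp_m, zsmul_tensor,
    smul_smul]
  by_cases h : (tensHom f g).m p q = 0
  · rw [tensHom_m] at h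
    rw [h, smul_zero, smul_zero]
  · have h' := tensHom_m_ne_zero f g h
    congr 1
    change ((b q.1 * d q.2).negOnePow : ℤ) = ((a p.1 * c p.2).negOnePow : ℤ) * _
    rw [hf _ _ h'.1, hg _ _ h'.2, ← Units.val_mul, ← Int.negOnePow_add]
    congr 2
    ring

variable [BraidedCategory P]

/-- The braiding with signs. -/
noncomputable def kbraid (a : F.ι → ℤ) (b : G.ι → ℤ) : tens F G ≅ tens G F where
  hom := diag (F := tens F G) (G := tens G F) (fun p => (p.2, p.1))
    (fun p => ((a p.1 * b p.2).negOnePow : ℤ) • (β_ (F.X p.1) (G.X p.2)).hom)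
  inv := diag (F := tens G F) (G := tens F G) (fun p => (p.2, p.1))
    (fun p => ((a p.2 * b p.1).negOnePow : ℤ) • (β_ (F.X p.2) (G.X p.1)).inv)
  hom_inv_id := by
    rw [diag_comp_diag, id_eq_diag]
    refine diag_ext (F := tens F G) (G := tens F G) _ fun p => ?_
    change (((a p.1 * b p.2).negOnePow : ℤ) • (β_ (F.X p.1) (G.X p.2)).hom) ≫
      (((a p.1 * b p.2).negOnePow : ℤ) • (β_ (F.X p.1) (G.X p.2)).inv) = 𝟙 _
    rw [Preadditive.zsmul_comp, Preadditive.comp_zsmul, smul_smul, Iso.hom_inv_id,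
      ← Units.val_mul, Int.units_mul_self, Units.val_one, one_smul]
  inv_hom_id := by
    rw [diag_comp_diag, id_eq_diag]
    refine diag_ext (F := tens G F) (G := tens G F) _ fun p => ?_
    change (((a p.2 * b p.1).negOnePow : ℤ) • (β_ (F.X p.2) (G.X p.1)).inv) ≫
      (((a p.2 * b p.1).negOnePow : ℤ) • (β_ (F.X p.2) (G.X p.1)).hom) = 𝟙 _
    rw [Preadditive.zsmul_comp, Preadditive.comp_zsmul, smul_smul, Iso.inv_hom_id,
      ← Units.val_mul, Int.units_mul_self, Units.val_one, one_smul]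

lemma kbraid_hom_eq (a : F.ι → ℤ) (b : G.ι → ℤ) :
    (kbraid a b).hom = sgn (pdeg a b) ≫ (β_ F G).hom := by
  rw [braid_hom_eq]
  refine Eq.trans ?_ (diag_comp_diag (F := tens F G) (G := tens F G) (H := tens G F)
    (fun p => p) _ (fun p => (p.2, p.1)) _).symm
  refine diag_ext (F := tens F G) (G := tens G F) _ fun p => ?_
  change _ = (((a p.1 * b p.2).negOnePow : ℤ) • 𝟙 (F.X p.1 ⊗ G.X p.2)) ≫ _
  rw [Preadditive.zsmul_comp, Category.id_comp]

lemma kbraid_natural {a : F.ι → ℤ} {b : F'.ι → ℤ} {c : G.ι → ℤ} {d : G'.ι → ℤ}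
    {f : F ⟶ F'} {g : G ⟶ G'} (hf : Homog a b 0 f) (hg : Homog c d 0 g) :
    tensHom f g ≫ (kbraid b d).hom = (kbraid a c).hom ≫ tensHom g f := by
  rw [kbraid_hom_eq, kbraid_hom_eq, ← Category.assoc, tensHom_pdeg_zero_zero hf hg,
    Category.assoc, Category.assoc]
  congr 1
  exact braid_natural f g

omit [MonoidalPreadditive P] in
lemma kbraid_homog (a : F.ι → ℤ) (b : G.ι → ℤ) :
    Homog (tdeg a b) (tdeg b a) 0 (kbraid a b).hom :=
  Homog.diag (F := tens F G) (G := tens G F) fun p => by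
    change b p.2 + a p.1 = a p.1 + b p.2 + 0
    ring

omit [MonoidalPreadditive P] in
lemma kbraid_inv_homog (a : F.ι → ℤ) (b : G.ι → ℤ) :
    Homog (tdeg b a) (tdeg a b) 0 (kbraid a b).inv :=
  Homog.diag (F := tens G F) (G := tens F G) fun p => by
    change a p.2 + b p.1 = b p.1 + a p.2 + 0
    ring

/-- The differential of a tensor product is compatible with the braiding. -/
lemma kbraid_comm {a : F.ι → ℤ} {b : G.ι → ℤ} {d : F ⟶ F} {d' : G ⟶ G}
    (hd : Homog a a 1 d) (hd' : Homog b b 1 d') :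
    (tensHom d (𝟙 G) + tensHom (sgn a) d') ≫ (kbraid a b).hom =
      (kbraid a b).hom ≫ (tensHom d' (𝟙 F) + tensHom (sgn b) d) := by
  rw [kbraid_hom_eq, Preadditive.add_comp, Preadditive.comp_add, ← Category.assoc,
    ← Category.assoc, tensHom_pdeg_one_zero hd Homog.id,
    tensHom_pdeg_zero_one (sgn_homog a) hd', Category.comp_id, sgn_sgn, Category.assoc,
    Category.assoc, Category.assoc, Category.assoc]
  have h1 : tensHom d (sgn b) ≫ (β_ F G).hom = (β_ F G).hom ≫ tensHom (sgn b) d :=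
    braid_natural _ _
  have h2 : tensHom (𝟙 F) d' ≫ (β_ F G).hom = (β_ F G).hom ≫ tensHom d' (𝟙 F) :=
    braid_natural _ _
  rw [h1, h2, add_comm]

lemma kbraid_hexagon_forward (a : F.ι → ℤ) (b : G.ι → ℤ) (c : H.ι → ℤ) :
    (assocIso F G H).hom ≫ (kbraid a (tdeg b c)).hom ≫ (assocIso G H F).hom =
      tensHom (kbraid a b).hom (𝟙 H) ≫ (assocIso G F H).hom ≫
        tensHom (𝟙 G) (kbraid a c).hom := by
  simp only [assocIso, kbraid]
  rw [id_eq_diag H, id_eq_diag G, tensHom_diag, tensHom_diag, diag_comp_diag,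
    diag_comp_diag, diag_comp_diag, diag_comp_diag]
  refine diag_ext (F := tens (tens F G) H) (G := tens G (tens H F)) _ ?_
  intro p
  have := BraidedCategory.hexagon_forward (F.X p.1.1) (G.X p.1.2) (H.X p.2)
  rw [← MonoidalCategory.tensorHom_id, ← MonoidalCategory.id_tensorHom] at this
  change (α_ (F.X p.1.1) (G.X p.1.2) (H.X p.2)).hom ≫
    (((a p.1.1 * (b p.1.2 + c p.2)).negOnePow : ℤ) •
      (β_ (F.X p.1.1) (G.X p.1.2 ⊗ H.X p.2)).hom) ≫
      (α_ (G.X p.1.2) (H.X p.2) (F.X p.1.1)).hom =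
    ((((a p.1.1 * b p.1.2).negOnePow : ℤ) • (β_ (F.X p.1.1) (G.X p.1.2)).hom) ⊗ₘ 𝟙 (H.X p.2)) ≫
      (α_ (G.X p.1.2) (F.X p.1.1) (H.X p.2)).hom ≫
      (𝟙 (G.X p.1.2) ⊗ₘ (((a p.1.1 * c p.2).negOnePow : ℤ) • (β_ (F.X p.1.1) (H.X p.2)).hom))
  rw [zsmul_tensor, tensor_zsmul, Preadditive.zsmul_comp, Preadditive.comp_zsmul,
    Preadditive.zsmul_comp, Preadditive.comp_zsmul, Preadditive.comp_zsmul, this, smul_smul,
    mul_add, Int.negOnePow_add, Units.val_mul]

lemma kbraid_hexagon_reverse (a : F.ι → ℤ) (b : G.ι → ℤ) (c : H.ι → ℤ) :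
    (assocIso F G H).inv ≫ (kbraid (tdeg a b) c).hom ≫ (assocIso H F G).inv =
      tensHom (𝟙 F) (kbraid b c).hom ≫ (assocIso F H G).inv ≫
        tensHom (kbraid a c).hom (𝟙 G) := by
  simp only [assocIso, kbraid]
  rw [id_eq_diag F, id_eq_diag G, tensHom_diag, tensHom_diag, diag_comp_diag,
    diag_comp_diag, diag_comp_diag, diag_comp_diag]
  refine diag_ext (F := tens F (tens G H)) (G := tens (tens H F) G) _ ?_
  intro p
  have := BraidedCategory.hexagon_reverse (F.X p.1) (G.X p.2.1) (H.X p.2.2)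
  rw [← MonoidalCategory.tensorHom_id, ← MonoidalCategory.id_tensorHom] at this
  change (α_ (F.X p.1) (G.X p.2.1) (H.X p.2.2)).inv ≫
    ((((a p.1 + b p.2.1) * c p.2.2).negOnePow : ℤ) •
      (β_ (F.X p.1 ⊗ G.X p.2.1) (H.X p.2.2)).hom) ≫
      (α_ (H.X p.2.2) (F.X p.1) (G.X p.2.1)).inv =
    (𝟙 (F.X p.1) ⊗ₘ (((b p.2.1 * c p.2.2).negOnePow : ℤ) •
      (β_ (G.X p.2.1) (H.X p.2.2)).hom)) ≫
      (α_ (F.X p.1) (H.X p.2.2) (G.X p.2.1)).inv ≫
      ((((a p.1 * c p.2.2).negOnePow : ℤ) • (β_ (F.X p.1) (H.X p.2.2)).hom) ⊗ₘ 𝟙 (G.X p.2.1))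
  rw [zsmul_tensor, tensor_zsmul, Preadditive.zsmul_comp, Preadditive.comp_zsmul,
    Preadditive.zsmul_comp, Preadditive.comp_zsmul, Preadditive.comp_zsmul, this, smul_smul,
    add_mul, Int.negOnePow_add, Units.val_mul, mul_comm ((b p.2.1 * c p.2.2).negOnePow : ℤ)]

end kbraid

section ksymm

variable {P : Type} [Category.{0} P] [Preadditive P] [MonoidalCategory P]
  [MonoidalPreadditive P] [SymmetricCategory P] {F G : Fam P}

omit [MonoidalPreadditive P] in
lemma kbraid_symmetry (a : F.ι → ℤ) (b : G.ι → ℤ) :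
    (kbraid a b).hom ≫ (kbraid b a).hom = 𝟙 (tens F G) := by
  simp only [kbraid]
  rw [diag_comp_diag, id_eq_diag]
  refine diag_ext (F := tens F G) (G := tens F G) _ fun p => ?_
  change (((a p.1 * b p.2).negOnePow : ℤ) • (β_ (F.X p.1) (G.X p.2)).hom) ≫
    (((b p.2 * a p.1).negOnePow : ℤ) • (β_ (G.X p.2) (F.X p.1)).hom) = 𝟙 _
  rw [Preadditive.zsmul_comp, Preadditive.comp_zsmul, smul_smul, SymmetricCategory.symmetry,
    mul_comm (b p.2), ← Units.val_mul, Int.units_mul_self, Units.val_one, one_smul]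

end ksymm

end Fam

namespace DG

variable {P : Type} [Category.{0} P] [Preadditive P] [MonoidalCategory P]
  [MonoidalPreadditive P]

/-- The tensor product of two complexes. -/
noncomputable def tens (A B : DG P) : DG P where
  F := Fam.tens A.F B.F
  deg := tdeg A.deg B.deg
  d := tensHom A.d (𝟙 B.F) + tensHom (sgn A.deg) B.d
  hd := (A.hd.tensHom' Homog.id (add_zero 1)).add
    ((sgn_homog A.deg).tensHom' B.hd (zero_add 1))
  dd := by
    rw [Preadditive.add_comp, Preadditive.comp_add, Preadditive.comp_add, tensHom_comp,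
      tensHom_comp, tensHom_comp, tensHom_comp, A.dd, B.dd, zero_tensHom, tensHom_zero,
      Category.id_comp, Category.comp_id, comp_sgn_one A.hd, zero_add, add_zero,
      ← add_tensHom, neg_add_cancel, zero_tensHom]
  wf := by
    refine Subrelation.wf (h₁ := ?_) (WellFounded.prod_gameAdd A.wf B.wf)
    rintro ⟨i', j'⟩ ⟨i, j⟩ h
    by_cases h1 : (tensHom A.d (𝟙 B.F)).m (i, j) (i', j') = 0
    · by_cases h2 : (tensHom (sgn A.deg) B.d).m (i, j) (i', j') = 0
      · exact absurd (by rw [add_m, h1, h2, add_zero]) h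
      · have h3 := tensHom_m_ne_zero _ _ h2
        obtain rfl : i = i' := diag_m_ne_zero _ _ h3.1
        exact Prod.GameAdd.snd h3.2
    · have h3 := tensHom_m_ne_zero _ _ h1
      obtain rfl : j = j' := by
        by_contra hne
        exact h3.2 (id_m_ne B.F hne)
      exact Prod.GameAdd.fst h3.1

variable (P) in
/-- The unit complex. -/
noncomputable def unit : DG P where
  F := Fam.unit P
  deg _ := 0
  d := 0
  hd := Homog.zero
  dd := by simp
  wf := ⟨fun a => ⟨a, fun b h => absurd rfl h⟩⟩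

variable {A B C D A' B' C' D' : DG P}

/-- The tensor product of two chain maps. -/
noncomputable def tensHom (f : A ⟶ A') (g : B ⟶ B') : tens A B ⟶ tens A' B' where
  f := Fam.tensHom f.f g.f
  hf := f.hf.tensHom' g.hf (add_zero 0)
  comm := by
    change (Fam.tensHom A.d (𝟙 B.F) + Fam.tensHom (sgn A.deg) B.d) ≫ Fam.tensHom f.f g.f =
      Fam.tensHom f.f g.f ≫ (Fam.tensHom A'.d (𝟙 B'.F) + Fam.tensHom (sgn A'.deg) B'.d)
    rw [Preadditive.add_comp, Preadditive.comp_add, tensHom_comp, tensHom_comp, tensHom_comp,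
      tensHom_comp, f.comm, g.comm, Category.id_comp, Category.comp_id, comp_sgn_zero f.hf]

@[simp]
lemma tensHom_f (f : A ⟶ A') (g : B ⟶ B') : (tensHom f g).f = Fam.tensHom f.f g.f := rfl

/-- An isomorphism of complexes from a homogeneous isomorphism of families compatible with
the differentials. -/
noncomputable def isoOf {A B : DG P} (e : A.F ≅ B.F) (h : Homog A.deg B.deg 0 e.hom)
    (h' : Homog B.deg A.deg 0 e.inv) (hc : A.d ≫ e.hom = e.hom ≫ B.d) : A ≅ B :=
  isoMk ⟨e.hom, h, hc⟩ ⟨e.inv, h', by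
    rw [← cancel_epi e.hom, ← Category.assoc, ← hc, Category.assoc, Iso.hom_inv_id,
      Category.comp_id, ← Category.assoc, Iso.hom_inv_id, Category.id_comp]⟩
    (Iso.hom_inv_id _) (Iso.inv_hom_id _)

/-- The associator. -/
noncomputable def assocIso (A B C : DG P) : tens (tens A B) C ≅ tens A (tens B C) :=
  isoOf (A := tens (tens A B) C) (B := tens A (tens B C)) (Fam.assocIso A.F B.F C.F)
    (Homog.diag (F := Fam.tens (Fam.tens A.F B.F) C.F) (G := Fam.tens A.F (Fam.tens B.F C.F))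
        fun p => by
          change A.deg p.1.1 + (B.deg p.1.2 + C.deg p.2) = A.deg p.1.1 + B.deg p.1.2 + C.deg p.2 + 0
          ring)
    (Homog.diag (F := Fam.tens A.F (Fam.tens B.F C.F)) (G := Fam.tens (Fam.tens A.F B.F) C.F)
        fun p => by
          change A.deg p.1 + B.deg p.2.1 + C.deg p.2.2 = A.deg p.1 + (B.deg p.2.1 + C.deg p.2.2) + 0
          ring)
    (by
      change (Fam.tensHom (Fam.tensHom A.d (𝟙 B.F) + Fam.tensHom (sgn A.deg) B.d) (𝟙 C.F) +
          Fam.tensHom (sgn (tdeg A.deg B.deg)) C.d) ≫ (α_ A.F B.F C.F).hom =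
        (α_ A.F B.F C.F).hom ≫ (Fam.tensHom A.d (𝟙 (Fam.tens B.F C.F)) +
          Fam.tensHom (sgn A.deg) (Fam.tensHom B.d (𝟙 C.F) + Fam.tensHom (sgn B.deg) C.d))
      rw [sgn_tens, add_tensHom, tensHom_add, ← tensHom_id, Preadditive.add_comp,
        Preadditive.add_comp, Preadditive.comp_add, Preadditive.comp_add]
      have h1 := MonoidalCategory.associator_naturality A.d (𝟙 B.F) (𝟙 C.F)
      have h2 := MonoidalCategory.associator_naturality (sgn A.deg) B.d (𝟙 C.F)
      have h3 := MonoidalCategory.associator_naturality (sgn A.deg) (sgn B.deg) C.d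
      simp only [tensorHom_eq] at h1 h2 h3 ⊢
      rw [h1, h2, h3, add_assoc])

/-- The left unitor. -/
noncomputable def leftIso (A : DG P) : tens (unit P) A ≅ A :=
  isoOf (A := tens (unit P) A) (B := A) (Fam.leftIso A.F)
    (Homog.diag (F := Fam.tens (Fam.unit P) A.F) (G := A.F) fun p => by
      change A.deg p.2 = 0 + A.deg p.2 + 0
      ring)
    (Homog.diag (F := A.F) (G := Fam.tens (Fam.unit P) A.F) fun p => by
      change 0 + A.deg p = A.deg p + 0
      ring)
    (left_comm A.d)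

/-- The right unitor. -/
noncomputable def rightIso (A : DG P) : tens A (unit P) ≅ A :=
  isoOf (A := tens A (unit P)) (B := A) (Fam.rightIso A.F)
    (Homog.diag (F := Fam.tens A.F (Fam.unit P)) (G := A.F) fun p => by
      change A.deg p.1 = A.deg p.1 + 0 + 0
      ring)
    (Homog.diag (F := A.F) (G := Fam.tens A.F (Fam.unit P)) fun p => by
      change A.deg p + 0 = A.deg p + 0
      ring)
    (right_comm A.deg A.d)

noncomputable instance : MonoidalCategoryStruct (DG P) where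
  tensorObj := tens
  whiskerLeft A _ _ g := tensHom (𝟙 A) g
  whiskerRight f B := tensHom f (𝟙 B)
  tensorHom := tensHom
  tensorUnit := unit P
  associator := assocIso
  leftUnitor := leftIso
  rightUnitor := rightIso

lemma tensorObj_eq (A B : DG P) : A ⊗ B = tens A B := rfl
lemma tensorUnit_eq : 𝟙_ (DG P) = unit P := rfl
lemma tensorHom_eq (f : A ⟶ A') (g : B ⟶ B') : f ⊗ₘ g = tensHom f g := rfl
lemma whiskerLeft_eq (A : DG P) (g : B ⟶ B') : A ◁ g = tensHom (𝟙 A) g := rfl
lemma whiskerRight_eq (f : A ⟶ A') (B : DG P) : f ▷ B = tensHom f (𝟙 B) := rfl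

/-- The underlying family of a tensor product. -/
lemma tensorObj_F (A B : DG P) : (A ⊗ B).F = A.F ⊗ B.F := rfl
lemma tensorObj_deg (A B : DG P) : (A ⊗ B).deg = tdeg A.deg B.deg := rfl
lemma tensorObj_d (A B : DG P) :
    (A ⊗ B).d = Fam.tensHom A.d (𝟙 B.F) + Fam.tensHom (sgn A.deg) B.d := rfl
lemma tensorUnit_F : (𝟙_ (DG P)).F = 𝟙_ (Fam P) := rfl
lemma tensorUnit_deg (i) : (𝟙_ (DG P)).deg i = 0 := rfl
lemma tensorUnit_d : (𝟙_ (DG P)).d = 0 := rfl

/-- The underlying matrix of a tensor product. -/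
lemma tensorHom_f (f : A ⟶ A') (g : B ⟶ B') : (f ⊗ₘ g).f = f.f ⊗ₘ g.f := rfl
lemma whiskerLeft_f (A : DG P) (g : B ⟶ B') : (A ◁ g).f = A.F ◁ g.f := rfl
lemma whiskerRight_f (f : A ⟶ A') (B : DG P) : (f ▷ B).f = f.f ▷ B.F := rfl
lemma associator_hom_f (A B C : DG P) : (α_ A B C).hom.f = (α_ A.F B.F C.F).hom := rfl
lemma associator_inv_f (A B C : DG P) : (α_ A B C).inv.f = (α_ A.F B.F C.F).inv := rfl
lemma leftUnitor_hom_f (A : DG P) : (λ_ A).hom.f = (λ_ A.F).hom := rfl
lemma leftUnitor_inv_f (A : DG P) : (λ_ A).inv.f = (λ_ A.F).inv := rfl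
lemma rightUnitor_hom_f (A : DG P) : (ρ_ A).hom.f = (ρ_ A.F).hom := rfl
lemma rightUnitor_inv_f (A : DG P) : (ρ_ A).inv.f = (ρ_ A.F).inv := rfl

noncomputable instance : MonoidalCategory (DG P) :=
  MonoidalCategory.ofTensorHom
    (id_tensorHom_id := fun A B => DG.hom_ext (tensHom_id A.F B.F))
    (id_tensorHom := fun _ _ _ _ => rfl)
    (tensorHom_id := fun _ _ => rfl)
    (tensorHom_comp_tensorHom := fun f₁ f₂ g₁ g₂ =>
      DG.hom_ext (tensHom_comp f₁.f g₁.f f₂.f g₂.f))
    (associator_naturality := fun f₁ f₂ f₃ =>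
      DG.hom_ext (MonoidalCategory.associator_naturality f₁.f f₂.f f₃.f))
    (leftUnitor_naturality := fun f => DG.hom_ext (MonoidalCategory.leftUnitor_naturality f.f))
    (rightUnitor_naturality := fun f => DG.hom_ext (MonoidalCategory.rightUnitor_naturality f.f))
    (pentagon := fun W X Y Z => DG.hom_ext (MonoidalCategory.pentagon W.F X.F Y.F Z.F))
    (triangle := fun X Y => DG.hom_ext (MonoidalCategory.triangle X.F Y.F))

instance : MonoidalPreadditive (DG P) where
  whiskerLeft_zero := DG.hom_ext (tensHom_zero _)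
  zero_whiskerRight := DG.hom_ext (zero_tensHom _)
  whiskerLeft_add _ _ := DG.hom_ext (tensHom_add _ _ _)
  add_whiskerRight _ _ := DG.hom_ext (add_tensHom _ _ _)

/-! ### Braiding -/

section braided

variable [BraidedCategory P]

/-- The braiding of complexes. -/
noncomputable def braidIso (A B : DG P) : tens A B ≅ tens B A :=
  isoOf (A := tens A B) (B := tens B A) (kbraid A.deg B.deg) (kbraid_homog A.deg B.deg)
    (kbraid_inv_homog A.deg B.deg) (kbraid_comm A.hd B.hd)

noncomputable instance : BraidedCategory (DG P) where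
  braiding := braidIso
  braiding_naturality_right A _ _ g := DG.hom_ext (kbraid_natural (𝟙 A : A ⟶ A).hf g.hf)
  braiding_naturality_left f B := DG.hom_ext (kbraid_natural f.hf (𝟙 B : B ⟶ B).hf)
  hexagon_forward A B C := DG.hom_ext (kbraid_hexagon_forward A.deg B.deg C.deg)
  hexagon_reverse A B C := DG.hom_ext (kbraid_hexagon_reverse A.deg B.deg C.deg)

lemma braiding_hom_f (A B : DG P) : (β_ A B).hom.f = (kbraid A.deg B.deg).hom := rfl
lemma braiding_inv_f (A B : DG P) : (β_ A B).inv.f = (kbraid A.deg B.deg).inv := rfl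

/-- The underlying matrix of the braiding is a sign matrix followed by the braiding of
families. -/
lemma braiding_hom_f' (A B : DG P) : (β_ A B).hom.f =
    sgn (F := Fam.tens A.F B.F) (fun p => A.deg p.1 * B.deg p.2) ≫ (β_ A.F B.F).hom :=
  kbraid_hom_eq A.deg B.deg

end braided

noncomputable instance [SymmetricCategory P] : SymmetricCategory (DG P) where
  toBraidedCategory := inferInstance
  symmetry A B := DG.hom_ext (kbraid_symmetry A.deg B.deg)

end DG

end Pool.Agent.H75.TT
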