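import Mathlib

/-!
The quotient of a (symmetric) monoidal category by a congruence compatible with the
tensor product.
-/

open CategoryTheory MonoidalCategory

namespace Pool.Agent.H75.TT

/-- A relation on morphisms compatible with the tensor product. -/
class TensorCongr {C : Type*} [Category* C] [MonoidalCategory C] (r : HomRel C) : Prop where
  whiskerLeft : ∀ (X : C) {Y Z : C} {g g' : Y ⟶ Z}, r g g' → r (X ◁ g) (X ◁ g')
  whiskerRight : ∀ {Y Z : C} {g g' : Y ⟶ Z} (X : C), r g g' → r (g ▷ X) (g' ▷ X)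

namespace QuotMon

variable {C : Type*} [Category* C] [MonoidalCategory C] (r : HomRel C)
  [TensorCongr r]

lemma cc_whiskerLeft (X : C) {Y Z : C} {g g' : Y ⟶ Z} (h : HomRel.CompClosure r g g') :
    HomRel.CompClosure r (X ◁ g) (X ◁ g') := by
  obtain ⟨a, b, f, m₁, m₂, k, h⟩ := h
  rw [whiskerLeft_comp, whiskerLeft_comp, whiskerLeft_comp, whiskerLeft_comp]
  exact HomRel.CompClosure.intro _ _ _ _ _ _ (TensorCongr.whiskerLeft _ h)

lemma cc_whiskerRight {Y Z : C} {g g' : Y ⟶ Z} (X : C) (h : HomRel.CompClosure r g g') :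
    HomRel.CompClosure r (g ▷ X) (g' ▷ X) := by
  obtain ⟨a, b, f, m₁, m₂, k, h⟩ := h
  rw [comp_whiskerRight, comp_whiskerRight, comp_whiskerRight, comp_whiskerRight]
  exact HomRel.CompClosure.intro _ _ _ _ _ _ (TensorCongr.whiskerRight _ h)

lemma cc_tensor_left {W X Y Z : C} {f f' : W ⟶ X} (g : Y ⟶ Z) (h : HomRel.CompClosure r f f') :
    HomRel.CompClosure r (f ⊗ₘ g) (f' ⊗ₘ g) := by
  rw [MonoidalCategory.tensorHom_def, MonoidalCategory.tensorHom_def]
  exact HomRel.comp_right _ (cc_whiskerRight r Y h)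

lemma cc_tensor_right {W X Y Z : C} (f : W ⟶ X) {g g' : Y ⟶ Z}
    (h : HomRel.CompClosure r g g') : HomRel.CompClosure r (f ⊗ₘ g) (f ⊗ₘ g') := by
  rw [MonoidalCategory.tensorHom_def, MonoidalCategory.tensorHom_def]
  exact HomRel.comp_left _ (cc_whiskerLeft r X h)

instance monStruct : MonoidalCategoryStruct (Quotient r) where
  tensorObj X Y := ⟨X.as ⊗ Y.as⟩
  whiskerLeft X _ _ g := Quot.map (fun g => X.as ◁ g) (fun _ _ h => cc_whiskerLeft r _ h) g
  whiskerRight f Y := Quot.map (fun f => f ▷ Y.as) (fun _ _ h => cc_whiskerRight r _ h) f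
  tensorHom f g := Quot.map₂ (fun f g => f ⊗ₘ g) (fun _ _ _ h => cc_tensor_right r _ h)
    (fun _ _ _ h => cc_tensor_left r _ h) f g
  tensorUnit := ⟨𝟙_ C⟩
  associator X Y Z := (Quotient.functor r).mapIso (α_ X.as Y.as Z.as)
  leftUnitor X := (Quotient.functor r).mapIso (λ_ X.as)
  rightUnitor X := (Quotient.functor r).mapIso (ρ_ X.as)

instance monCat : MonoidalCategory (Quotient r) where
  tensorHom_def := by
    rintro _ _ _ _ ⟨f⟩ ⟨g⟩
    exact congrArg (Quotient.functor r).map (MonoidalCategory.tensorHom_def f g)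
  id_tensorHom_id X Y :=
    congrArg (Quotient.functor r).map (MonoidalCategory.id_tensorHom_id X.as Y.as)
  tensorHom_comp_tensorHom := by
    rintro _ _ _ _ _ _ ⟨f₁⟩ ⟨f₂⟩ ⟨g₁⟩ ⟨g₂⟩
    exact congrArg (Quotient.functor r).map
      (MonoidalCategory.tensorHom_comp_tensorHom f₁ f₂ g₁ g₂)
  whiskerLeft_id X Y :=
    congrArg (Quotient.functor r).map (MonoidalCategory.whiskerLeft_id X.as Y.as)
  id_whiskerRight X Y :=
    congrArg (Quotient.functor r).map (MonoidalCategory.id_whiskerRight X.as Y.as)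
  associator_naturality := by
    rintro _ _ _ _ _ _ ⟨f₁⟩ ⟨f₂⟩ ⟨f₃⟩
    exact congrArg (Quotient.functor r).map (MonoidalCategory.associator_naturality f₁ f₂ f₃)
  leftUnitor_naturality := by
    rintro _ _ ⟨f⟩
    exact congrArg (Quotient.functor r).map (MonoidalCategory.leftUnitor_naturality f)
  rightUnitor_naturality := by
    rintro _ _ ⟨f⟩
    exact congrArg (Quotient.functor r).map (MonoidalCategory.rightUnitor_naturality f)
  pentagon W X Y Z :=
    congrArg (Quotient.functor r).map (MonoidalCategory.pentagon W.as X.as Y.as Z.as)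
  triangle X Y :=
    congrArg (Quotient.functor r).map (MonoidalCategory.triangle X.as Y.as)

section lemmas

variable {W X Y Z : C}

lemma obj_tensor (X Y : C) : (Quotient.functor r).obj X ⊗ (Quotient.functor r).obj Y =
    (Quotient.functor r).obj (X ⊗ Y) := rfl
lemma obj_unit : 𝟙_ (Quotient r) = (Quotient.functor r).obj (𝟙_ C) := rfl
lemma map_tensor (f : W ⟶ X) (g : Y ⟶ Z) :
    (Quotient.functor r).map f ⊗ₘ (Quotient.functor r).map g =
      (Quotient.functor r).map (f ⊗ₘ g) := rfl
lemma map_whiskerLeft (X : C) (g : Y ⟶ Z) :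
    (Quotient.functor r).obj X ◁ (Quotient.functor r).map g =
      (Quotient.functor r).map (X ◁ g) := rfl
lemma map_whiskerRight (f : Y ⟶ Z) (X : C) :
    (Quotient.functor r).map f ▷ (Quotient.functor r).obj X =
      (Quotient.functor r).map (f ▷ X) := rfl
lemma associator_hom (X Y Z : C) :
    (α_ ((Quotient.functor r).obj X) ((Quotient.functor r).obj Y)
      ((Quotient.functor r).obj Z)).hom = (Quotient.functor r).map (α_ X Y Z).hom := rfl
lemma associator_inv (X Y Z : C) :
    (α_ ((Quotient.functor r).obj X) ((Quotient.functor r).obj Y)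
      ((Quotient.functor r).obj Z)).inv = (Quotient.functor r).map (α_ X Y Z).inv := rfl
lemma leftUnitor_hom (X : C) :
    (λ_ ((Quotient.functor r).obj X)).hom = (Quotient.functor r).map (λ_ X).hom := rfl
lemma leftUnitor_inv (X : C) :
    (λ_ ((Quotient.functor r).obj X)).inv = (Quotient.functor r).map (λ_ X).inv := rfl
lemma rightUnitor_hom (X : C) :
    (ρ_ ((Quotient.functor r).obj X)).hom = (Quotient.functor r).map (ρ_ X).hom := rfl
lemma rightUnitor_inv (X : C) :
    (ρ_ ((Quotient.functor r).obj X)).inv = (Quotient.functor r).map (ρ_ X).inv := rfl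

end lemmas

/-- The quotient functor is strictly monoidal. -/
instance functorMonoidal : (Quotient.functor r).Monoidal :=
  Functor.CoreMonoidal.toMonoidal
    { εIso := Iso.refl _
      μIso := fun _ _ => Iso.refl _
      μIso_hom_natural_left := fun {X Y} f X' =>
        congrArg (Quotient.functor r).map
          (show f ▷ X' ≫ 𝟙 (Y ⊗ X') = 𝟙 (X ⊗ X') ≫ f ▷ X' by simp)
      μIso_hom_natural_right := fun {X Y} X' f =>
        congrArg (Quotient.functor r).map
          (show X' ◁ f ≫ 𝟙 (X' ⊗ Y) = 𝟙 (X' ⊗ X) ≫ X' ◁ f by simp)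
      associativity := fun X Y Z =>
        congrArg (Quotient.functor r).map
          (show 𝟙 (X ⊗ Y) ▷ Z ≫ 𝟙 ((X ⊗ Y) ⊗ Z) ≫ (α_ X Y Z).hom =
            (α_ X Y Z).hom ≫ X ◁ 𝟙 (Y ⊗ Z) ≫ 𝟙 (X ⊗ (Y ⊗ Z)) by simp)
      left_unitality := fun X =>
        congrArg (Quotient.functor r).map
          (show (λ_ X).hom = 𝟙 (𝟙_ C) ▷ X ≫ 𝟙 (𝟙_ C ⊗ X) ≫ (λ_ X).hom by simp)
      right_unitality := fun X =>
        congrArg (Quotient.functor r).map
          (show (ρ_ X).hom = X ◁ 𝟙 (𝟙_ C) ≫ 𝟙 (X ⊗ 𝟙_ C) ≫ (ρ_ X).hom by simp) }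

lemma functor_ε : Functor.LaxMonoidal.ε (Quotient.functor r) = 𝟙 (𝟙_ (Quotient r)) := rfl
lemma functor_η : Functor.OplaxMonoidal.η (Quotient.functor r) = 𝟙 (𝟙_ (Quotient r)) := rfl
lemma functor_μ (X Y : C) : Functor.LaxMonoidal.μ (Quotient.functor r) X Y =
    𝟙 ((Quotient.functor r).obj X ⊗ (Quotient.functor r).obj Y) := rfl
lemma functor_δ (X Y : C) : Functor.OplaxMonoidal.δ (Quotient.functor r) X Y =
    𝟙 ((Quotient.functor r).obj X ⊗ (Quotient.functor r).obj Y) := rfl

section braided

variable [BraidedCategory C]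

instance quotBraided : BraidedCategory (Quotient r) where
  braiding X Y := (Quotient.functor r).mapIso (β_ X.as Y.as)
  braiding_naturality_right := by
    rintro X _ _ ⟨f⟩
    exact congrArg (Quotient.functor r).map (BraidedCategory.braiding_naturality_right X.as f)
  braiding_naturality_left := by
    rintro _ _ ⟨f⟩ Z
    exact congrArg (Quotient.functor r).map (BraidedCategory.braiding_naturality_left f Z.as)
  hexagon_forward X Y Z :=
    congrArg (Quotient.functor r).map (BraidedCategory.hexagon_forward X.as Y.as Z.as)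
  hexagon_reverse X Y Z :=
    congrArg (Quotient.functor r).map (BraidedCategory.hexagon_reverse X.as Y.as Z.as)

lemma braiding_hom (X Y : C) :
    (β_ ((Quotient.functor r).obj X) ((Quotient.functor r).obj Y)).hom =
      (Quotient.functor r).map (β_ X Y).hom := rfl
lemma braiding_inv (X Y : C) :
    (β_ ((Quotient.functor r).obj X) ((Quotient.functor r).obj Y)).inv =
      (Quotient.functor r).map (β_ X Y).inv := rfl

/-- The quotient functor is braided. -/
instance functorBraided : (Quotient.functor r).Braided where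
  toMonoidal := functorMonoidal r
  braided X Y :=
    congrArg (Quotient.functor r).map
      (show 𝟙 (X ⊗ Y) ≫ (β_ X Y).hom = (β_ X Y).hom ≫ 𝟙 (Y ⊗ X) by simp)

end braided

instance quotSymmetric [SymmetricCategory C] : SymmetricCategory (Quotient r) where
  toBraidedCategory := inferInstance
  symmetry X Y :=
    congrArg (Quotient.functor r).map (SymmetricCategory.symmetry X.as Y.as)

/-- The quotient of a monoidal preadditive category. -/
theorem quotMonoidalPreadditive [Preadditive C] [MonoidalPreadditive C]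
    [Preadditive (Quotient r)] [(Quotient.functor r).Additive] :
    MonoidalPreadditive (Quotient r) where
  whiskerLeft_zero := by
    rintro ⟨X⟩ ⟨Y⟩ ⟨Z⟩
    change (Quotient.functor r).obj X ◁
      (0 : (Quotient.functor r).obj Y ⟶ (Quotient.functor r).obj Z) = 0
    rw [← Functor.map_zero, map_whiskerLeft, MonoidalPreadditive.whiskerLeft_zero,
      Functor.map_zero]
  zero_whiskerRight := by
    rintro ⟨X⟩ ⟨Y⟩ ⟨Z⟩
    change (0 : (Quotient.functor r).obj Y ⟶ (Quotient.functor r).obj Z) ▷
      (Quotient.functor r).obj X = 0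
    rw [← Functor.map_zero, map_whiskerRight, MonoidalPreadditive.zero_whiskerRight,
      Functor.map_zero]
  whiskerLeft_add := by
    rintro ⟨X⟩ ⟨Y⟩ ⟨Z⟩ ⟨f⟩ ⟨g⟩
    change (Quotient.functor r).obj X ◁ ((Quotient.functor r).map f + (Quotient.functor r).map g)
      = (Quotient.functor r).map (X ◁ f) + (Quotient.functor r).map (X ◁ g)
    rw [← Functor.map_add, map_whiskerLeft, MonoidalPreadditive.whiskerLeft_add,
      Functor.map_add]
  add_whiskerRight := by
    rintro ⟨X⟩ ⟨Y⟩ ⟨Z⟩ ⟨f⟩ ⟨g⟩
    change ((Quotient.functor r).map f + (Quotient.functor r).map g) ▷ (Quotient.functor r).obj X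
      = (Quotient.functor r).map (f ▷ X) + (Quotient.functor r).map (g ▷ X)
    rw [← Functor.map_add, map_whiskerRight, MonoidalPreadditive.add_whiskerRight,
      Functor.map_add]

end QuotMon

end Pool.Agent.H75.TT
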