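import Pool.Agent.H35.TT.DGMon
import Pool.Agent.H35.TT.QuotMon

/-!
The tensor structure on the homotopy category of semi-free complexes.
-/

open CategoryTheory CategoryTheory.Limits MonoidalCategory

namespace Pool.Agent.H75.TT

open Fam

namespace DG

variable {P : Type} [Category.{0} P] [Preadditive P] [MonoidalCategory P]
  [MonoidalPreadditive P] {A B C A' B' : DG P}

/-- Tensoring a homotopy on the left by a complex. -/
lemma homotopic_whiskerLeft (C : DG P) {f g : A ⟶ B} (h : Homotopic f g) :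
    Homotopic (C ◁ f) (C ◁ g) := by
  obtain ⟨h, hh, e⟩ := h
  refine ⟨Fam.tensHom (sgn C.deg) h, (sgn_homog C.deg).tensHom' hh (zero_add (-1)), ?_⟩
  change Fam.tensHom (𝟙 C.F) f.f = Fam.tensHom (𝟙 C.F) g.f +
    (Fam.tensHom C.d (𝟙 A.F) + Fam.tensHom (sgn C.deg) A.d) ≫ Fam.tensHom (sgn C.deg) h +
    Fam.tensHom (sgn C.deg) h ≫ (Fam.tensHom C.d (𝟙 B.F) + Fam.tensHom (sgn C.deg) B.d)
  rw [Preadditive.add_comp, Preadditive.comp_add, tensHom_comp, tensHom_comp, tensHom_comp,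
    tensHom_comp, sgn_sgn, Category.id_comp, Category.comp_id, comp_sgn_one C.hd, e,
    tensHom_add, tensHom_add, ← Fam.tensorHom_eq (-(sgn C.deg ≫ C.d)), neg_tensor,
    Fam.tensorHom_eq]
  abel

/-- Tensoring a homotopy on the right by a complex. -/
lemma homotopic_whiskerRight {f g : A ⟶ B} (C : DG P) (h : Homotopic f g) :
    Homotopic (f ▷ C) (g ▷ C) := by
  obtain ⟨h, hh, e⟩ := h
  refine ⟨Fam.tensHom h (𝟙 C.F), hh.tensHom' Homog.id (add_zero (-1)), ?_⟩
  change Fam.tensHom f.f (𝟙 C.F) = Fam.tensHom g.f (𝟙 C.F) +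
    (Fam.tensHom A.d (𝟙 C.F) + Fam.tensHom (sgn A.deg) C.d) ≫ Fam.tensHom h (𝟙 C.F) +
    Fam.tensHom h (𝟙 C.F) ≫ (Fam.tensHom B.d (𝟙 C.F) + Fam.tensHom (sgn B.deg) C.d)
  have hs : h ≫ sgn B.deg = -(sgn A.deg ≫ h) := by
    rw [comp_sgn hh]; simp
  rw [Preadditive.add_comp, Preadditive.comp_add, tensHom_comp, tensHom_comp, tensHom_comp,
    tensHom_comp, Category.id_comp, Category.comp_id, Category.id_comp, hs, e,
    add_tensHom, add_tensHom, ← Fam.tensorHom_eq (-(sgn A.deg ≫ h)), neg_tensor,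
    Fam.tensorHom_eq]
  abel

instance : TensorCongr (homRel P) where
  whiskerLeft C _ _ _ _ h := homotopic_whiskerLeft C h
  whiskerRight C h := homotopic_whiskerRight C h

/-- The tensor product of chain maps respects homotopy. -/
lemma homotopic_tensor {f g : A ⟶ B} {f' g' : A' ⟶ B'} (h : Homotopic f g)
    (h' : Homotopic f' g') : Homotopic (f ⊗ₘ f') (g ⊗ₘ g') := by
  rw [MonoidalCategory.tensorHom_def, MonoidalCategory.tensorHom_def]
  have h1 : homRel P (f ▷ A' ≫ B ◁ f') (g ▷ A' ≫ B ◁ f') :=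
    HomRel.comp_right _ (homotopic_whiskerRight A' h)
  have h2 : homRel P (g ▷ A' ≫ B ◁ f') (g ▷ A' ≫ B ◁ g') :=
    HomRel.comp_left _ (homotopic_whiskerLeft B h')
  exact (Congruence.equivalence (r := homRel P)).trans h1 h2

end DG

namespace T

variable {P : Type} [Category.{0} P] [Preadditive P] [MonoidalCategory P]
  [MonoidalPreadditive P]

noncomputable instance : MonoidalCategory (T P) := QuotMon.monCat (DG.homRel P)

instance : MonoidalPreadditive (T P) := QuotMon.quotMonoidalPreadditive (DG.homRel P)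

noncomputable instance : (Q : DG P ⥤ T P).Monoidal := QuotMon.functorMonoidal (DG.homRel P)

noncomputable instance [BraidedCategory P] : BraidedCategory (T P) :=
  QuotMon.quotBraided (DG.homRel P)

noncomputable instance [SymmetricCategory P] : SymmetricCategory (T P) :=
  QuotMon.quotSymmetric (DG.homRel P)

noncomputable instance [BraidedCategory P] : (Q : DG P ⥤ T P).Braided :=
  QuotMon.functorBraided (DG.homRel P)

variable {A B C D : DG P}

lemma Q_obj_tensor (A B : DG P) : Q.obj A ⊗ Q.obj B = Q.obj (A ⊗ B) := rfl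
lemma Q_obj_unit : 𝟙_ (T P) = Q.obj (𝟙_ (DG P)) := rfl
lemma Q_map_tensor (f : A ⟶ B) (g : C ⟶ D) : Q.map f ⊗ₘ Q.map g = Q.map (f ⊗ₘ g) := rfl
lemma Q_map_whiskerLeft (A : DG P) (g : C ⟶ D) : Q.obj A ◁ Q.map g = Q.map (A ◁ g) := rfl
lemma Q_map_whiskerRight (f : A ⟶ B) (C : DG P) : Q.map f ▷ Q.obj C = Q.map (f ▷ C) := rfl
lemma Q_associator_hom (A B C : DG P) :
    (α_ (Q.obj A) (Q.obj B) (Q.obj C)).hom = Q.map (α_ A B C).hom := rfl
lemma Q_associator_inv (A B C : DG P) :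
    (α_ (Q.obj A) (Q.obj B) (Q.obj C)).inv = Q.map (α_ A B C).inv := rfl
lemma Q_leftUnitor_hom (A : DG P) : (λ_ (Q.obj A)).hom = Q.map (λ_ A).hom := rfl
lemma Q_leftUnitor_inv (A : DG P) : (λ_ (Q.obj A)).inv = Q.map (λ_ A).inv := rfl
lemma Q_rightUnitor_hom (A : DG P) : (ρ_ (Q.obj A)).hom = Q.map (ρ_ A).hom := rfl
lemma Q_rightUnitor_inv (A : DG P) : (ρ_ (Q.obj A)).inv = Q.map (ρ_ A).inv := rfl
lemma Q_braiding_hom [BraidedCategory P] (A B : DG P) :
    (β_ (Q.obj A) (Q.obj B)).hom = Q.map (β_ A B).hom := rfl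
lemma Q_braiding_inv [BraidedCategory P] (A B : DG P) :
    (β_ (Q.obj A) (Q.obj B)).inv = Q.map (β_ A B).inv := rfl

end T

end Pool.Agent.H75.TT
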