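import Pool.Agent.H35.TT.TensEx
import Pool.Agent.H86.TT.MapCop

/-!
Tensoring with an object of `T P` preserves coproducts.
-/

open CategoryTheory CategoryTheory.Limits CategoryTheory.Pretriangulated MonoidalCategory

namespace Pool.Agent.H75.TT

open Fam

variable {P : Type} [Category.{0} P] [Preadditive P] [MonoidalCategory P]
  [MonoidalPreadditive P]

namespace Fam

variable {α : Type} (F : α → Fam P) (H : Fam P)

/-- `∐ (F a ⊗ H) ≅ (∐ F a) ⊗ H`. -/
noncomputable def tsigIso : Fam.sigma (fun a => tens (F a) H) ≅ tens (Fam.sigma F) H where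
  hom := diag (F := Fam.sigma (fun a => tens (F a) H)) (G := tens (Fam.sigma F) H)
    (fun q => (⟨q.1, q.2.1⟩, q.2.2)) (fun q => 𝟙 ((F q.1).X q.2.1 ⊗ H.X q.2.2))
  inv := diag (F := tens (Fam.sigma F) H) (G := Fam.sigma (fun a => tens (F a) H))
    (fun p => ⟨p.1.1, (p.1.2, p.2)⟩) (fun p => 𝟙 ((F p.1.1).X p.1.2 ⊗ H.X p.2))
  hom_inv_id := by
    rw [diag_comp_diag, id_eq_diag]
    exact diag_ext (F := Fam.sigma (fun a => tens (F a) H))
      (G := Fam.sigma (fun a => tens (F a) H)) _ fun p => Category.comp_id _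
  inv_hom_id := by
    rw [diag_comp_diag, id_eq_diag]
    exact diag_ext (F := tens (Fam.sigma F) H) (G := tens (Fam.sigma F) H) _
      fun p => Category.comp_id _

lemma inc_tsigIso (a : α) :
    Fam.inc (fun a => tens (F a) H) a ≫ (tsigIso F H).hom = tensHom (Fam.inc F a) (𝟙 H) := by
  rw [id_eq_diag H]
  simp only [Fam.inc, tsigIso]
  rw [tensHom_diag]
  refine (diag_comp_diag (F := tens (F a) H) (G := Fam.sigma (fun a => tens (F a) H))
    (H := tens (Fam.sigma F) H) _ _ _ _).trans ?_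
  refine diag_ext (F := tens (F a) H) (G := tens (Fam.sigma F) H) _ fun p => ?_
  change 𝟙 ((F a).X p.1 ⊗ H.X p.2) ≫ 𝟙 ((F a).X p.1 ⊗ H.X p.2) =
    𝟙 ((F a).X p.1) ⊗ₘ 𝟙 (H.X p.2)
  rw [MonoidalCategory.id_tensorHom_id, Category.comp_id]

omit [MonoidalCategory P] [MonoidalPreadditive P] in
lemma comm_aux {X Y Z : Fam P} {s : X ⟶ Y} {dY : Y ⟶ Y} {dX : X ⟶ X} {t : Y ⟶ Z} {dZ : Z ⟶ Z}
    {u : X ⟶ Z} (h1 : s ≫ dY = dX ≫ s) (h2 : s ≫ t = u) (h3 : dX ≫ u = u ≫ dZ) :
    s ≫ dY ≫ t = s ≫ t ≫ dZ := by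
  rw [← Category.assoc, h1, Category.assoc, h2, h3, ← h2, Category.assoc]

end Fam

namespace DG

variable {α : Type} (A : α → DG P) (C : DG P)

/-- `∐ (A a ⊗ C) ≅ (∐ A a) ⊗ C`. -/
noncomputable def tsigIso : sigma (fun a => tens (A a) C) ≅ tens (sigma A) C :=
  isoOf (A := sigma (fun a => tens (A a) C)) (B := tens (sigma A) C)
    (Fam.tsigIso (fun a => (A a).F) C.F)
    (Homog.diag (F := Fam.sigma (fun a => Fam.tens (A a).F C.F))
      (G := Fam.tens (Fam.sigma fun a => (A a).F) C.F) fun _ => (add_zero _).symm)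
    (Homog.diag (G := Fam.sigma (fun a => Fam.tens (A a).F C.F))
      (F := Fam.tens (Fam.sigma fun a => (A a).F) C.F) fun _ => (add_zero _).symm)
    (by
      refine Fam.sigma_ext (fun a => Fam.tens (A a).F C.F) fun a => ?_
      have h1 : Fam.inc (fun a => Fam.tens (A a).F C.F) a ≫ sigD (fun a => tens (A a) C) =
        (tens (A a) C).d ≫ Fam.inc (fun a => Fam.tens (A a).F C.F) a :=
        inc_sigD (fun a => tens (A a) C) a
      have h2 := inc_tsigIso (fun a => (A a).F) C.F a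
      have h3 : (tens (A a) C).d ≫ Fam.tensHom (Fam.inc (fun a => (A a).F) a) (𝟙 C.F) =
        Fam.tensHom (Fam.inc (fun a => (A a).F) a) (𝟙 C.F) ≫ (tens (sigma A) C).d :=
        (tensHom (inc A a) (𝟙 C)).comm
      exact comm_aux h1 h2 h3)

lemma inc_tsigIso_dg (a : α) :
    inc (fun a => tens (A a) C) a ≫ (tsigIso A C).hom = tensHom (inc A a) (𝟙 C) :=
  DG.hom_ext (inc_tsigIso (fun a => (A a).F) C.F a)

end DG

namespace T

instance tensorRight_preserves (C : T P) (J : Type) :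
    PreservesColimitsOfShape (Discrete J) (tensorRight C) := by
  obtain ⟨C⟩ := C
  refine preservesColimits_of_sigma (tensorRight (Q.obj C)) (fun α A => ?_) J
  exact ⟨fun a => DG.tens (A a) C, fun a => Iso.refl _, Q.mapIso (DG.tsigIso A C), fun a =>
    ((Q.map_comp _ _).symm.trans (congrArg Q.map (DG.inc_tsigIso_dg A C a))).trans
      (Category.id_comp _).symm⟩

instance tensorLeft_preserves [BraidedCategory P] (C : T P) (J : Type) :
    PreservesColimitsOfShape (Discrete J) (tensorLeft C) :=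
  preservesColimitsOfShape_of_natIso (BraidedCategory.tensorLeftIsoTensorRight C).symm

end T

end Pool.Agent.H75.TT
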