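import Pool.Agent.H75.TT.Tri2
import Pool.Agent.H75.TT.Defs

/-!
A functor on complexes which commutes with shifts and cones induces an exact functor.
-/

open CategoryTheory CategoryTheory.Limits CategoryTheory.Pretriangulated

namespace Pool.Agent.H75.TT

open Fam DG

variable {P P' : Type} [Category.{0} P] [Preadditive P] [Category.{0} P'] [Preadditive P']

/-- `H` commutes with cones. -/
def CommCone (H : DG P ⥤ DG P') [H.CommShift ℤ] : Prop :=
  ∀ (A B : DG P) (f : A ⟶ B), ∃ c : H.obj (cone f) ≅ cone (H.map f),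
    H.map (cinr f) ≫ c.hom = cinr (H.map f) ∧
    H.map (cfst f) ≫ (H.commShiftIso (1 : ℤ)).hom.app A = c.hom ≫ cfst (H.map f)

/-- A functor commuting with cones maps cone triangles to cone triangles. -/
lemma CommCone.exists_iso {H : DG P ⥤ DG P'} [H.CommShift ℤ] (hH : CommCone H)
    {A B : DG P} (f : A ⟶ B) : Nonempty (H.mapTriangle.obj (coneTri f) ≅ coneTri (H.map f)) := by
  obtain ⟨c, h1, h2⟩ := hH A B f
  refine ⟨Triangle.isoMk _ _ (Iso.refl _) (Iso.refl _) c ?_ ?_ ?_⟩
  · exact (Category.comp_id _).trans (Category.id_comp _).symm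
  · exact h1.trans (Category.id_comp _).symm
  · refine Eq.trans ?_ h2
    change (H.map (cfst f) ≫ (H.commShiftIso (1 : ℤ)).hom.app A) ≫ (𝟙 (H.obj A))⟦(1 : ℤ)⟧' = _
    rw [CategoryTheory.Functor.map_id]
    exact Category.comp_id _

/-- The functor induced on homotopy categories by a functor commuting with cones is exact. -/
theorem isTriangulated_of_commCone (H : DG P ⥤ DG P') [H.CommShift ℤ] (hH : CommCone H)
    (G : T P ⥤ T P') [G.CommShift ℤ] (e : T.Q ⋙ G ≅ H ⋙ T.Q) [NatTrans.CommShift e.hom ℤ] :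
    G.IsTriangulated where
  map_distinguished X hX := by
    obtain ⟨A, B, f, ⟨i⟩⟩ := hX
    obtain ⟨j⟩ := hH.exists_iso f
    refine isomorphic_distinguished _ (T.coneTriT_distinguished (H.map f)) _ ?_
    exact G.mapTriangle.mapIso i ≪≫
      (Functor.mapTriangleCompIso (T.Q : DG P ⥤ T P) G).symm.app (coneTri f) ≪≫
      (Functor.mapTriangleIso e).app (coneTri f) ≪≫
      (Functor.mapTriangleCompIso H (T.Q : DG P' ⥤ T P')).app (coneTri f) ≪≫
      (T.Q : DG P' ⥤ T P').mapTriangle.mapIso j

/-- Exactness is invariant under isomorphism of functors. -/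
theorem IsExactFun.of_iso {C D : Type*} [Category* C] [Category* D] [HasZeroObject C]
    [HasZeroObject D] [HasShift C ℤ] [HasShift D ℤ] [Preadditive C] [Preadditive D]
    [∀ n : ℤ, (shiftFunctor C n).Additive] [∀ n : ℤ, (shiftFunctor D n).Additive]
    [Pretriangulated C] [Pretriangulated D] {F G : C ⥤ D} (hF : IsExactFun F) (e : F ≅ G) :
    IsExactFun G := by
  obtain ⟨c, h⟩ := hF
  let c' : G.CommShift ℤ := Functor.CommShift.ofIso e ℤ
  have : NatTrans.CommShift e.hom ℤ := Functor.CommShift.ofIso_compatibility e ℤ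
  exact ⟨c', Functor.isTriangulated_of_iso e⟩

end Pool.Agent.H75.TT
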