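import Pool.Agent.H35.TT.TMon
import Pool.Agent.H35.TT.TriFun

/-!
Tensoring with an object of `T P` is exact.
-/

open CategoryTheory CategoryTheory.Limits CategoryTheory.Pretriangulated MonoidalCategory

namespace Pool.Agent.H75.TT

open Fam

namespace Fam

section distr

variable {P : Type} [Category.{0} P] [Preadditive P] [MonoidalCategory P]
  [MonoidalPreadditive P] {F G K : Fam P} (H : Fam P)

lemma tsum_ext {f g : tens (Fam.sum F G) H ⟶ K}
    (h1 : tensHom (inl F G) (𝟙 H) ≫ f = tensHom (inl F G) (𝟙 H) ≫ g)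
    (h2 : tensHom (inr F G) (𝟙 H) ≫ f = tensHom (inr F G) (𝟙 H) ≫ g) : f = g := by
  have h : tensHom (fst F G) (𝟙 H) ≫ tensHom (inl F G) (𝟙 H) +
      tensHom (snd F G) (𝟙 H) ≫ tensHom (inr F G) (𝟙 H) = 𝟙 (tens (Fam.sum F G) H) := by
    rw [tensHom_comp, tensHom_comp, Category.comp_id, ← add_tensHom, total, tensHom_id]
  rw [← Category.id_comp f, ← Category.id_comp g, ← h, Preadditive.add_comp,
    Preadditive.add_comp, Category.assoc, Category.assoc, Category.assoc, Category.assoc, h1, h2]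

variable (F G)

/-- The matrix of the right distributor. -/
noncomputable def rdist : tens (Fam.sum F G) H ⟶ Fam.sum (tens F H) (tens G H) :=
  tensHom (fst F G) (𝟙 H) ≫ inl (tens F H) (tens G H) +
    tensHom (snd F G) (𝟙 H) ≫ inr (tens F H) (tens G H)

/-- The inverse of the matrix of the right distributor. -/
noncomputable def rdistInv : Fam.sum (tens F H) (tens G H) ⟶ tens (Fam.sum F G) H :=
  fst (tens F H) (tens G H) ≫ tensHom (inl F G) (𝟙 H) +
    snd (tens F H) (tens G H) ≫ tensHom (inr F G) (𝟙 H)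

lemma inl_rdist : tensHom (inl F G) (𝟙 H) ≫ rdist F G H = inl (tens F H) (tens G H) := by
  rw [rdist, Preadditive.comp_add, ← Category.assoc, ← Category.assoc, tensHom_comp,
    tensHom_comp, inl_fst, inl_snd, zero_tensHom, zero_comp, add_zero, Category.comp_id,
    tensHom_id, Category.id_comp]

lemma inr_rdist : tensHom (inr F G) (𝟙 H) ≫ rdist F G H = inr (tens F H) (tens G H) := by
  rw [rdist, Preadditive.comp_add, ← Category.assoc, ← Category.assoc, tensHom_comp,
    tensHom_comp, inr_fst, inr_snd, zero_tensHom, zero_comp, zero_add, Category.comp_id,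
    tensHom_id, Category.id_comp]

lemma rdist_fst : rdist F G H ≫ fst (tens F H) (tens G H) = tensHom (fst F G) (𝟙 H) := by
  simp [rdist]

lemma rdist_snd : rdist F G H ≫ snd (tens F H) (tens G H) = tensHom (snd F G) (𝟙 H) := by
  simp [rdist]

lemma rdist_inv : rdist F G H ≫ rdistInv F G H = 𝟙 _ := by
  apply tsum_ext
  · rw [← Category.assoc, inl_rdist, rdistInv]
    simp
  · rw [← Category.assoc, inr_rdist, rdistInv]
    simp

lemma inv_rdist : rdistInv F G H ≫ rdist F G H = 𝟙 _ := by
  apply sum_ext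
  · rw [rdistInv, Preadditive.add_comp, Category.assoc, Category.assoc, inl_rdist, inr_rdist]
    simp
  · rw [rdistInv, Preadditive.add_comp, Category.assoc, Category.assoc, inl_rdist, inr_rdist]
    simp

/-- The right distributor. -/
noncomputable def rdistIso : tens (Fam.sum F G) H ≅ Fam.sum (tens F H) (tens G H) where
  hom := rdist F G H
  inv := rdistInv F G H
  hom_inv_id := rdist_inv F G H
  inv_hom_id := inv_rdist F G H

omit [MonoidalCategory P] [MonoidalPreadditive P] in
lemma sgn_sub (F : Fam P) (a : F.ι → ℤ) (n : ℤ) :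
    sgn (F := F) (fun i => a i - n) = (n.negOnePow : ℤ) • sgn a := by
  ext i j
  rw [zsmul_m, sgn, sgn]
  by_cases h : i = j
  · subst h
    rw [diag_m_self, diag_m_self, smul_smul]
    congr 1
    rw [Int.negOnePow_sub, Units.val_mul, mul_comm]
  · rw [diag_m_ne _ _ h, diag_m_ne _ _ h, smul_zero]

lemma zsmul_tensHom (n : ℤ) {F' G' : Fam P} (f : F ⟶ F') (g : G ⟶ G') :
    tensHom (n • f) g = n • tensHom f g := zsmul_tensor n f g

lemma tensHom_zsmul (n : ℤ) {F' G' : Fam P} (f : F ⟶ F') (g : G ⟶ G') :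
    tensHom f (n • g) = n • tensHom f g := tensor_zsmul n f g

lemma neg_tensHom {F' G' : Fam P} (f : F ⟶ F') (g : G ⟶ G') :
    tensHom (-f) g = -tensHom f g := neg_tensor f g

lemma tensHom_neg {F' G' : Fam P} (f : F ⟶ F') (g : G ⟶ G') :
    tensHom f (-g) = -tensHom f g := tensor_neg f g

variable {F G}

lemma tens_inl_rdist {H' : Fam P} (g : K ⟶ F) (k : H' ⟶ H) :
    tensHom (g ≫ inl F G) k ≫ rdist F G H = tensHom g k ≫ inl (tens F H) (tens G H) := by
  rw [← inl_rdist, ← Category.assoc, tensHom_comp, Category.comp_id]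

lemma tens_inr_rdist {H' : Fam P} (g : K ⟶ G) (k : H' ⟶ H) :
    tensHom (g ≫ inr F G) k ≫ rdist F G H = tensHom g k ≫ inr (tens F H) (tens G H) := by
  rw [← inr_rdist, ← Category.assoc, tensHom_comp, Category.comp_id]

lemma rdist_cD (a : F.ι → ℤ) (b : G.ι → ℤ) (dF : F ⟶ F) (dG : G ⟶ G) (dH : H ⟶ H)
    (f : F ⟶ G) :
    (tensHom (cD dF dG f) (𝟙 H) +
      tensHom (sgn (F := Fam.sum F G) (Sum.elim (fun i => a i - 1) b)) dH) ≫ rdist F G H =
    rdist F G H ≫ cD (tensHom dF (𝟙 H) + tensHom (sgn a) dH)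
      (tensHom dG (𝟙 H) + tensHom (sgn b) dH) (tensHom f (𝟙 H)) := by
  have h3 : Homog (G := Fam.sum F G) a (Sum.elim (fun i => a i - 1) b) (-1) (inl F G) :=
    inl_homog fun i => by ring
  have h4 : Homog (G := Fam.sum F G) b (Sum.elim (fun i => a i - 1) b) 0 (inr F G) :=
    inr_homog fun i => by ring
  have e1 : inl F G ≫ sgn (F := Fam.sum F G) (Sum.elim (fun i => a i - 1) b)
      = -(sgn a ≫ inl F G) := by
    rw [comp_sgn h3]; simp
  have e2 : inr F G ≫ sgn (F := Fam.sum F G) (Sum.elim (fun i => a i - 1) b)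
      = sgn b ≫ inr F G := comp_sgn_zero h4
  apply tsum_ext
  · rw [← Category.assoc, Preadditive.comp_add, tensHom_comp, tensHom_comp, inl_cD, e1,
      Category.id_comp, Category.id_comp, ← Category.assoc, inl_rdist, inl_cD, add_tensHom,
      neg_tensHom, neg_tensHom, Preadditive.add_comp, Preadditive.add_comp,
      Preadditive.neg_comp, Preadditive.neg_comp, tens_inl_rdist, tens_inl_rdist,
      tens_inr_rdist, Preadditive.add_comp]
    abel
  · rw [← Category.assoc, Preadditive.comp_add, tensHom_comp, tensHom_comp, inr_cD, e2,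
      Category.id_comp, Category.id_comp, ← Category.assoc, inr_rdist, inr_cD,
      Preadditive.add_comp, tens_inr_rdist, tens_inr_rdist, Preadditive.add_comp]

lemma rdist_homog (a : F.ι → ℤ) (b : G.ι → ℤ) (c : H.ι → ℤ) :
    Homog (F := tens (Fam.sum F G) H) (G := Fam.sum (tens F H) (tens G H))
      (fun p => Sum.elim (fun i => a i - 1) b p.1 + c p.2)
      (Sum.elim (fun p => tdeg a c p - 1) (tdeg b c)) 0 (rdist F G H) := by
  have h1 : Homog (F := Fam.sum F G) (Sum.elim (fun i => a i - 1) b) a 1 (fst F G) :=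
    fst_homog fun i => by ring
  have h2 : Homog (F := Fam.sum F G) (Sum.elim (fun i => a i - 1) b) b 0 (snd F G) :=
    snd_homog fun i => by ring
  have h3 : Homog (G := Fam.sum (tens F H) (tens G H)) (tdeg a c)
      (Sum.elim (fun p => tdeg a c p - 1) (tdeg b c)) (-1) (inl (tens F H) (tens G H)) :=
    inl_homog fun i => by ring
  have h4 : Homog (G := Fam.sum (tens F H) (tens G H)) (tdeg b c)
      (Sum.elim (fun p => tdeg a c p - 1) (tdeg b c)) 0 (inr (tens F H) (tens G H)) :=
    inr_homog fun i => by ring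
  have h5 := h1.tensHom' (Homog.id (F := H) (a := c)) (add_zero 1)
  have h6 := h2.tensHom' (Homog.id (F := H) (a := c)) (add_zero 0)
  exact (h5.comp' h3 (by norm_num)).add (h6.comp' h4 (by norm_num))

lemma rdistInv_homog (a : F.ι → ℤ) (b : G.ι → ℤ) (c : H.ι → ℤ) :
    Homog (G := tens (Fam.sum F G) H) (F := Fam.sum (tens F H) (tens G H))
      (Sum.elim (fun p => tdeg a c p - 1) (tdeg b c))
      (fun p => Sum.elim (fun i => a i - 1) b p.1 + c p.2) 0 (rdistInv F G H) := by
  have h1 : Homog (G := Fam.sum F G) a (Sum.elim (fun i => a i - 1) b) (-1) (inl F G) :=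
    inl_homog fun i => by ring
  have h2 : Homog (G := Fam.sum F G) b (Sum.elim (fun i => a i - 1) b) 0 (inr F G) :=
    inr_homog fun i => by ring
  have h3 : Homog (F := Fam.sum (tens F H) (tens G H))
      (Sum.elim (fun p => tdeg a c p - 1) (tdeg b c)) (tdeg a c) 1 (fst (tens F H) (tens G H)) :=
    fst_homog fun i => by ring
  have h4 : Homog (F := Fam.sum (tens F H) (tens G H))
      (Sum.elim (fun p => tdeg a c p - 1) (tdeg b c)) (tdeg b c) 0 (snd (tens F H) (tens G H)) :=
    snd_homog fun i => by ring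
  have h5 := h1.tensHom' (Homog.id (F := H) (a := c)) (add_zero (-1))
  have h6 := h2.tensHom' (Homog.id (F := H) (a := c)) (add_zero 0)
  exact (h3.comp' h5 (by norm_num)).add (h4.comp' h6 (by norm_num))

end distr

end Fam

namespace DG

variable {P : Type} [Category.{0} P] [Preadditive P] [MonoidalCategory P]
  [MonoidalPreadditive P]

/-- `A⟦n⟧ ⊗ B ≅ (A ⊗ B)⟦n⟧`. -/
noncomputable def tshIso (n : ℤ) (A B : DG P) : tens (sh n A) B ≅ sh n (tens A B) :=
  idIso (F := Fam.tens A.F B.F) (a := fun p => (A.deg p.1 - n) + B.deg p.2)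
    (a' := fun p => (A.deg p.1 + B.deg p.2) - n) (fun _ => by ring) (by
      change Fam.tensHom ((n.negOnePow : ℤ) • A.d) (𝟙 B.F) +
        Fam.tensHom (sgn (fun i => A.deg i - n)) B.d =
        (n.negOnePow : ℤ) • (Fam.tensHom A.d (𝟙 B.F) + Fam.tensHom (sgn A.deg) B.d)
      rw [sgn_sub, zsmul_tensHom, zsmul_tensHom, smul_add])

@[simp] lemma tshIso_hom_f (n : ℤ) (A B : DG P) :
    (tshIso n A B).hom.f = 𝟙 (Fam.tens A.F B.F) := rfl
@[simp] lemma tshIso_inv_f (n : ℤ) (A B : DG P) :
    (tshIso n A B).inv.f = 𝟙 (Fam.tens A.F B.F) := rfl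

noncomputable instance (B : DG P) : (tensorRight B).CommShift ℤ where
  commShiftIso n := NatIso.ofComponents (fun A => tshIso n A B) (fun {A A'} f => by
    apply DG.hom_ext
    exact (Category.comp_id (Fam.tensHom f.f (𝟙 B.F))).trans
      (Category.id_comp (Fam.tensHom f.f (𝟙 B.F))).symm)
  commShiftIso_zero := by
    apply Iso.ext
    apply NatTrans.ext
    funext A
    apply DG.hom_ext
    rw [Functor.CommShift.isoZero_hom_app]
    change 𝟙 (Fam.tens A.F B.F) = Fam.tensHom (𝟙 A.F) (𝟙 B.F) ≫ 𝟙 (Fam.tens A.F B.F)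
    rw [tensHom_id, Category.comp_id]
  commShiftIso_add n m := by
    apply Iso.ext
    apply NatTrans.ext
    funext A
    apply DG.hom_ext
    rw [Functor.CommShift.isoAdd_hom_app]
    change 𝟙 (Fam.tens A.F B.F) = Fam.tensHom (𝟙 A.F) (𝟙 B.F) ≫ 𝟙 (Fam.tens A.F B.F) ≫
      𝟙 (Fam.tens A.F B.F) ≫ 𝟙 (Fam.tens A.F B.F)
    rw [tensHom_id]
    simp

lemma tensorRight_commShiftIso_hom_f (n : ℤ) (A B : DG P) :
    (((tensorRight B).commShiftIso n).hom.app A).f = 𝟙 (Fam.tens A.F B.F) := rfl

lemma tensorRight_commShiftIso_inv_f (n : ℤ) (A B : DG P) :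
    (((tensorRight B).commShiftIso n).inv.app A).f = 𝟙 (Fam.tens A.F B.F) := rfl

/-- `cone f ⊗ B ≅ cone (f ▷ B)`. -/
noncomputable def tconeIso {A A' : DG P} (f : A ⟶ A') (B : DG P) :
    tens (cone f) B ≅ cone (tensHom f (𝟙 B)) :=
  isoOf (A := tens (cone f) B) (B := cone (tensHom f (𝟙 B))) (rdistIso A.F A'.F B.F)
    (rdist_homog B.F A.deg A'.deg B.deg) (rdistInv_homog B.F A.deg A'.deg B.deg)
    (rdist_cD B.F A.deg A'.deg A.d A'.d B.d f.f)

lemma commCone_tensorRight (B : DG P) : CommCone (tensorRight B) := fun A A' f =>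
  ⟨tconeIso f B, DG.hom_ext (inr_rdist A.F A'.F B.F),
    DG.hom_ext ((Category.comp_id (Fam.tensHom (fst A.F A'.F) (𝟙 B.F))).trans
      (rdist_fst A.F A'.F B.F).symm)⟩

end DG

namespace T

variable {P : Type} [Category.{0} P] [Preadditive P] [MonoidalCategory P]
  [MonoidalPreadditive P]

lemma tensR_aux (B : DG P) : ∀ (A A' : DG P) (f g : A ⟶ A'), DG.homRel P f g →
    (tensorRight B ⋙ Q).map f = (tensorRight B ⋙ Q).map g := by
  intro A A' f g h
  exact CategoryTheory.Quotient.sound _ (DG.homotopic_whiskerRight B h)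

/-- The functor `- ⊗ B` on the homotopy category, for a complex `B`. -/
noncomputable def tensR (B : DG P) : T P ⥤ T P :=
  CategoryTheory.Quotient.lift (DG.homRel P) (tensorRight B ⋙ Q) (tensR_aux B)

noncomputable instance (B : DG P) : (tensR B).CommShift ℤ :=
  inferInstanceAs ((CategoryTheory.Quotient.lift (DG.homRel P) (tensorRight B ⋙ Q)
    (tensR_aux B)).CommShift ℤ)

/-- The defining isomorphism (identity). -/
noncomputable def QTensRIso (B : DG P) : Q ⋙ tensR B ≅ tensorRight B ⋙ Q :=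
  CategoryTheory.Quotient.lift.isLift (DG.homRel P) (tensorRight B ⋙ Q) (tensR_aux B)

instance (B : DG P) : NatTrans.CommShift (QTensRIso B).hom ℤ :=
  inferInstanceAs (NatTrans.CommShift
    (CategoryTheory.Quotient.lift.isLift (DG.homRel P) (tensorRight B ⋙ Q)
      (tensR_aux B)).hom ℤ)

instance (B : DG P) : (tensR B).IsTriangulated :=
  isTriangulated_of_commCone (tensorRight B) (DG.commCone_tensorRight B) (tensR B) (QTensRIso B)

/-- `tensR B` is tensoring with `Q.obj B`. -/
noncomputable def tensRIso (B : DG P) : tensR B ≅ tensorRight (Q.obj B) :=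
  NatIso.ofComponents (fun _ => Iso.refl _) (by
    rintro ⟨X⟩ ⟨Y⟩ ⟨f⟩
    exact (Category.comp_id _).trans (Category.id_comp _).symm)

/-- Tensoring on the right is exact. -/
theorem isExactFun_tensorRight (B : T P) : IsExactFun (tensorRight B) := by
  obtain ⟨B⟩ := B
  exact IsExactFun.of_iso ⟨inferInstance, inferInstance⟩ (tensRIso B)

/-- Tensoring on the left is exact. -/
theorem isExactFun_tensorLeft [BraidedCategory P] (B : T P) : IsExactFun (tensorLeft B) :=
  (isExactFun_tensorRight B).of_iso (BraidedCategory.tensorLeftIsoTensorRight B).symm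

end T

end Pool.Agent.H75.TT
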